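import Pool.Agent.ZH17.IN.Main
import Pool.Agent.Helper475.ExistsRingequivPow
import Pool.Agent.H254R3.IN.Chars

/-!
# Residues of the number of characters in Galois stable sets

The proofs of `card_mod` and `numCh_eq` follow Pool/Agent/N19/RB/Par.lean and Pool/Agent/Hp21/AW/Deg.lean.
-/

set_option autoImplicit false
set_option linter.unusedSectionVars false

open scoped BigOperators Classical

noncomputable section

namespace Pool.Agent.ZH17.IN

open Pool.Agent.Helper884.IC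
open Pool.Agent.Q90.WR

section parity

variable {G : Type}

/-- the number of Galois conjugates -/
def numCh (χ : G → ℂ) : ℕ := {ψ : G → ℂ | ∃ σ : ℂ ≃+* ℂ, ψ = fun g => σ (χ g)}.ncard

/-- the conjugates -/
def cls (χ : G → ℂ) : Set (G → ℂ) := {ψ | ∃ σ : ℂ ≃+* ℂ, ψ = fun g => σ (χ g)}

theorem cls_self (χ : G → ℂ) : χ ∈ cls χ := ⟨1, rfl⟩

theorem cls_eq {χ ψ : G → ℂ} : cls ψ = cls χ ↔ ψ ∈ cls χ := by
  constructor
  · intro h
    rw [← h]
    exact cls_self ψ
  · rintro ⟨σ, rfl⟩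
    ext φ
    constructor
    · rintro ⟨τ, rfl⟩
      exact ⟨τ * σ, rfl⟩
    · rintro ⟨τ, rfl⟩
      refine ⟨τ * σ⁻¹, funext fun g => ?_⟩
      change τ (χ g) = τ (σ⁻¹ (σ (χ g)))
      congr 1
      exact (σ.symm_apply_apply _).symm

/-- In a finite Galois-stable set the characters whose number of conjugates is divisible by `q` come in
number divisible by `q`. -/
theorem card_mod (q : ℕ) {A : Set (G → ℂ)} (hA : A.Finite)
    (hs : ∀ σ : ℂ ≃+* ℂ, ∀ χ ∈ A, (fun g => σ (χ g)) ∈ A) :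
    Nat.card A ≡ Nat.card {χ // χ ∈ A ∧ ¬ q ∣ numCh χ} [MOD q] := by
  have hfin : {χ | χ ∈ A ∧ ¬ q ∣ numCh χ}.Finite := hA.subset fun χ h => h.1
  have c1 : Nat.card A = hA.toFinset.card := Nat.card_eq_card_finite_toFinset hA
  have c2 : Nat.card {χ // χ ∈ A ∧ ¬ q ∣ numCh χ} =
      (hA.toFinset.filter fun χ => ¬ q ∣ numCh χ).card := by
    have h1 : Nat.card {χ // χ ∈ A ∧ ¬ q ∣ numCh χ} = hfin.toFinset.card :=
      Nat.card_eq_card_finite_toFinset hfin
    rw [h1]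
    congr 1
    ext χ
    simp
  have key : ∀ χ ∈ A, (hA.toFinset.filter fun ψ => cls ψ = cls χ).card = numCh χ := by
    intro χ hχ
    unfold numCh
    rw [← Set.ncard_coe_finset]
    congr 1
    ext ψ
    rw [Finset.mem_coe, Finset.mem_filter, Set.Finite.mem_toFinset, cls_eq]
    constructor
    · exact fun h => h.2
    · rintro ⟨σ, rfl⟩
      exact ⟨hs σ χ hχ, ⟨σ, rfl⟩⟩
  rw [c1, c2, Finset.card_eq_sum_card_image cls hA.toFinset,
    Finset.card_eq_sum_card_fiberwise (f := cls) (t := hA.toFinset.image cls)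
      (s := hA.toFinset.filter fun χ => ¬ q ∣ numCh χ)
      (fun χ hχ => Finset.mem_coe.mpr (Finset.mem_image_of_mem _
        (Finset.mem_filter.mp (Finset.mem_coe.mp hχ)).1))]
  rw [← ZMod.natCast_eq_natCast_iff, Nat.cast_sum, Nat.cast_sum]
  refine Finset.sum_congr rfl fun c hc => ?_
  obtain ⟨χ, hχ, rfl⟩ := Finset.mem_image.mp hc
  rw [Set.Finite.mem_toFinset] at hχ
  rw [Finset.filter_filter]
  by_cases ho : ¬ q ∣ numCh χ
  · congr 2
    refine Finset.filter_congr fun ψ _ => ?_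
    constructor
    · intro h
      refine ⟨?_, h⟩
      change ¬ q ∣ (cls ψ).ncard
      rw [h]
      exact ho
    · exact fun h => h.2
  · rw [key χ hχ, Finset.filter_false_of_mem, Finset.card_empty, Nat.cast_zero,
      ZMod.natCast_eq_zero_iff]
    · exact not_not.mp ho
    · rintro ψ - ⟨h1, h2⟩
      apply ho
      change ¬ q ∣ (cls χ).ncard
      rw [← h2]
      exact h1

/-- In a finite set closed under complex conjugation the characters which are not real-valued come in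
even number. -/
theorem card_real {A : Set (G → ℂ)} (hA : A.Finite)
    (hs : ∀ χ ∈ A, (fun g => (starRingEnd ℂ) (χ g)) ∈ A) :
    Nat.card A ≡ Nat.card {χ // χ ∈ A ∧ ∀ g, (starRingEnd ℂ) (χ g) = χ g} [MOD 2] := by
  have := hA.fintype
  let f : Function.End A := fun χ => ⟨fun g => (starRingEnd ℂ) (χ.1 g), hs χ.1 χ.2⟩
  have hf : f ^ 2 ^ 1 = 1 := by
    rw [pow_one, pow_two]
    funext χ
    apply Subtype.ext
    funext g
    exact Complex.conj_conj _
  have h1 := Equiv.Perm.card_fixedPoints_modEq (p := 2) hf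
  rw [Nat.card_eq_fintype_card]
  refine h1.trans ?_
  rw [← Nat.card_eq_fintype_card]
  have e : f.fixedPoints ≃ {χ // χ ∈ A ∧ ∀ g, (starRingEnd ℂ) (χ g) = χ g} :=
    { toFun := fun χ => ⟨χ.1.1, χ.1.2, fun g => congrFun (congrArg Subtype.val χ.2) g⟩
      invFun := fun χ => ⟨⟨χ.1, χ.2.1⟩, Subtype.ext (funext χ.2.2)⟩
      left_inv := fun _ => rfl
      right_inv := fun _ => rfl }
  rw [Nat.card_congr e]

/-- The field of values `ℚ(χ)`. -/
abbrev fieldOf (χ : G → ℂ) : IntermediateField ℚ ℂ :=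
  IntermediateField.adjoin ℚ (Set.range χ)

theorem numCh_eq [Finite G] {χ : G → ℂ} (h : ∀ g, IsAlgebraic ℚ (χ g)) :
    numCh χ = Module.finrank ℚ (fieldOf χ) := by
  have hfin : FiniteDimensional ℚ (fieldOf χ) :=
    IntermediateField.finiteDimensional_adjoin (fun x hx => by
      obtain ⟨g, rfl⟩ := hx
      exact (h g).isIntegral)
  have hmem : ∀ g, χ g ∈ fieldOf χ := fun g =>
    IntermediateField.subset_adjoin ℚ _ ⟨g, rfl⟩
  have hcard : Fintype.card (fieldOf χ →ₐ[ℚ] ℂ) = Module.finrank ℚ (fieldOf χ) :=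
    AlgHom.card ℚ (fieldOf χ) ℂ
  rw [← hcard, ← Nat.card_eq_fintype_card]
  unfold numCh
  rw [← Nat.card_coe_set_eq]
  symm
  refine Nat.card_congr (Equiv.ofBijective (fun φ : fieldOf χ →ₐ[ℚ] ℂ =>
    (⟨fun g => φ ⟨χ g, hmem g⟩, ?_⟩ : {ψ : G → ℂ | ∃ σ : ℂ ≃+* ℂ, ψ = fun g => σ (χ g)})) ⟨?_, ?_⟩)
  · have hF : Cardinal.mk (fieldOf χ) ≤ Cardinal.aleph0 := by
      have h1 : Algebra.IsAlgebraic ℚ (fieldOf χ) := inferInstance
      have h2 := Algebra.IsAlgebraic.cardinalMk_le_max ℚ (fieldOf χ)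
      refine h2.trans ?_
      simp
    obtain ⟨σ, hσ⟩ := H475.exists_ringEquiv_pow_aux2 hF (algebraMap (fieldOf χ) ℂ)
      (φ : fieldOf χ →+* ℂ)
    exact ⟨σ, funext fun g => (hσ ⟨χ g, hmem g⟩).symm⟩
  · intro φ ψ hφψ
    have h1 : ∀ g, φ ⟨χ g, hmem g⟩ = ψ ⟨χ g, hmem g⟩ := fun g =>
      congrFun (congrArg Subtype.val hφψ) g
    refine IntermediateField.algHom_ext_of_eq_adjoin _ rfl fun x hx => ?_
    obtain ⟨g, rfl⟩ := hx
    exact h1 g
  · rintro ⟨ψ, σ, rfl⟩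
    exact ⟨((RingEquiv.toRatAlgEquiv σ : ℂ ≃ₐ[ℚ] ℂ) : ℂ →ₐ[ℚ] ℂ).comp (fieldOf χ).val, rfl⟩

theorem irr_numCh {G : Type} [Group G] [Finite G] {χ : G → ℂ} (h : IsIrrChar χ) :
    numCh χ = Module.finrank ℚ (fieldOf χ) :=
  numCh_eq fun g => (((Pool.Agent.H254R3.IN.IsIrr.isIntegral (χ := χ) h g).tower_top
    (A := ℚ))).isAlgebraic

end parity

section A

variable {p e : ℕ} {c : ZMod p} {G : Type} [Group G] [Finite G]

theorem dg_gal (σ : ℂ ≃+* ℂ) {χ : G → ℂ} (h : IsIrrChar χ) : dg (fun g => σ (χ g)) = dg χ := by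
  apply dg_eq
  rw [dg_spec h, map_natCast]

theorem A_finite : {χ : G → ℂ | IsIrrChar χ ∧ v p e χ = c}.Finite := by
  have := Fintype.ofFinite G
  exact (irr_finite (G := G)).subset fun χ h => h.1

theorem cnt_mod (q : ℕ) : cnt p e c G ≡
    Nat.card {χ : G → ℂ // IsIrrChar χ ∧ v p e χ = c ∧ ¬ q ∣ Module.finrank ℚ (fieldOf χ)}
      [MOD q] := by
  have h := card_mod q (A_finite (p := p) (e := e) (c := c) (G := G)) (by
    intro σ χ hχ
    refine ⟨irr_gal σ hχ.1, ?_⟩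
    unfold v
    rw [dg_gal σ hχ.1]
    exact hχ.2)
  refine h.trans ?_
  have e1 : Nat.card {χ // χ ∈ {χ : G → ℂ | IsIrrChar χ ∧ v p e χ = c} ∧ ¬ q ∣ numCh χ} =
      Nat.card {χ : G → ℂ // IsIrrChar χ ∧ v p e χ = c ∧
        ¬ q ∣ Module.finrank ℚ (fieldOf χ)} := by
    refine Nat.card_congr (Equiv.subtypeEquivRight fun χ => ?_)
    constructor
    · rintro ⟨⟨h1, h2⟩, h3⟩
      rw [irr_numCh h1] at h3
      exact ⟨h1, h2, h3⟩
    · rintro ⟨h1, h2, h3⟩
      rw [← irr_numCh h1] at h3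
      exact ⟨⟨h1, h2⟩, h3⟩
  rw [e1]

theorem cnt_real : cnt p e c G ≡
    Nat.card {χ : G → ℂ // IsIrrChar χ ∧ v p e χ = c ∧ ∀ g, (starRingEnd ℂ) (χ g) = χ g}
      [MOD 2] := by
  have h := card_real (A_finite (p := p) (e := e) (c := c) (G := G)) (by
    intro χ hχ
    have h1 := irr_gal (starRingAut : ℂ ≃+* ℂ) hχ.1
    have h2 := dg_gal (starRingAut : ℂ ≃+* ℂ) hχ.1
    refine ⟨h1, ?_⟩
    change v p e (fun g => (starRingAut : ℂ ≃+* ℂ) (χ g)) = c
    unfold v
    rw [h2]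
    exact hχ.2)
  refine h.trans ?_
  have e1 : Nat.card {χ // χ ∈ {χ : G → ℂ | IsIrrChar χ ∧ v p e χ = c} ∧
      ∀ g, (starRingEnd ℂ) (χ g) = χ g} =
      Nat.card {χ : G → ℂ // IsIrrChar χ ∧ v p e χ = c ∧ ∀ g, (starRingEnd ℂ) (χ g) = χ g} :=
    Nat.card_congr (Equiv.subtypeEquivRight fun χ => and_assoc)
  rw [e1]

end A

/-! ### bijections and numbers -/

section bij

variable {p e : ℕ} [hp : Fact p.Prime]

/-- the irreducible characters of degree prime to `p` -/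
def IrrP (p : ℕ) (G : Type) [Group G] : Type :=
  {χ : G → ℂ // IsIrrChar χ ∧ ∃ d : ℕ, χ 1 = (d : ℂ) ∧ ¬ p ∣ d}

theorem fib {G : Type} [Group G] [Finite G] (c : ZMod p) (hc : c ≠ 0) (he : e ≠ 0) :
    Nat.card {χ : IrrP p G // v p e χ.1 = c} = cnt p e c G := by
  unfold cnt
  refine Nat.card_congr ⟨fun χ => ⟨χ.1.1, χ.1.2.1, χ.2⟩, fun χ => ⟨⟨χ.1, χ.2.1, dg χ.1,
    dg_spec χ.2.1, ?_⟩, χ.2.2⟩, fun _ => rfl, fun _ => rfl⟩
  intro h
  have h1 := χ.2.2
  unfold v at h1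
  rw [(ZMod.natCast_eq_zero_iff _ _).mpr h, zero_pow he] at h1
  exact hc h1.symm

theorem fib_zero {G : Type} [Group G] [Finite G] :
    IsEmpty {χ : IrrP p G // v p e χ.1 = 0} := by
  constructor
  rintro ⟨⟨χ, h1, d, hd, hpd⟩, h2⟩
  unfold v at h2
  have h4 : ((dg χ : ℕ) : ZMod p) = 0 := by
    by_contra h
    exact pow_ne_zero e h h2
  rw [dg_eq hd, ZMod.natCast_eq_zero_iff] at h4
  exact hpd h4

theorem irrP_finite {G : Type} [Group G] [Finite G] : Finite (IrrP p G) := by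
  have := Fintype.ofFinite G
  have h : {χ : G → ℂ | IsIrrChar χ ∧ ∃ d : ℕ, χ 1 = (d : ℂ) ∧ ¬ p ∣ d}.Finite :=
    (irr_finite (G := G)).subset fun χ h => h.1
  exact h

/-- a bijection preserving the `e`-th powers of the degrees modulo `p` exists iff all numbers agree -/
theorem bij_iff (he : e ≠ 0) {G H : Type} [Group G] [Finite G] [Group H] [Finite H] :
    (∃ f : IrrP p G ≃ IrrP p H, ∀ χ, v p e (f χ).1 = v p e χ.1) ↔
      ∀ c : ZMod p, c ≠ 0 → cnt p e c G = cnt p e c H := by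
  have f1 := irrP_finite (p := p) (G := G)
  have f2 := irrP_finite (p := p) (G := H)
  constructor
  · rintro ⟨f, hf⟩ c hc
    rw [← fib c hc he, ← fib c hc he]
    refine Nat.card_congr (f.subtypeEquiv fun χ => ?_)
    rw [hf]
  · intro h
    have h1 : ∀ c : ZMod p, Nonempty ({χ : IrrP p G // v p e χ.1 = c} ≃
        {χ : IrrP p H // v p e χ.1 = c}) := by
      intro c
      by_cases hc : c = 0
      · rw [hc]
        have i1 := fib_zero (p := p) (e := e) (G := G)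
        have i2 := fib_zero (p := p) (e := e) (G := H)
        exact ⟨Equiv.equivOfIsEmpty _ _⟩
      · have h2 := h c hc
        rw [← fib c hc he, ← fib c hc he] at h2
        have g1 : Finite {χ : IrrP p G // v p e χ.1 = c} := Subtype.finite
        have g2 : Finite {χ : IrrP p H // v p e χ.1 = c} := Subtype.finite
        exact ⟨(Finite.equivFinOfCardEq h2).trans (Finite.equivFinOfCardEq rfl).symm⟩
    let F : ∀ c : ZMod p, ({χ : IrrP p G // v p e χ.1 = c} ≃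
        {χ : IrrP p H // v p e χ.1 = c}) := fun c => (h1 c).some
    refine ⟨(Equiv.sigmaFiberEquiv fun χ : IrrP p G => v p e χ.1).symm.trans
      ((Equiv.sigmaCongrRight fun c => F c).trans
        (Equiv.sigmaFiberEquiv fun χ : IrrP p H => v p e χ.1)), fun χ => ?_⟩
    exact ((F (v p e χ.1)) ⟨χ, rfl⟩).2

end bij

end Pool.Agent.ZH17.IN
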