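import Pool.Agent.ZH17.IN.Count

/-!
# The affine groups of the prime fields
-/

set_option autoImplicit false

open scoped BigOperators Classical

noncomputable section

namespace Pool.Agent.ZH17.IN

open Pool.Agent.Helper884.IC Representation
open Pool.Agent.Q90.WR
open Pool.Agent.Q99.AS (ten ten_irr ten_cover ten_inj card_prod)

/-- The group of the affine maps `x ↦ a x + b` of the field with `q` elements, `q` a prime. -/
@[ext]
structure Aff (q : ℕ) : Type where
  /-- the linear part -/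
  a : (ZMod q)ˣ
  /-- the translation part -/
  b : ZMod q

namespace Aff

variable {q : ℕ}

instance : Mul (Aff q) := ⟨fun x y => ⟨x.a * y.a, x.a * y.b + x.b⟩⟩

instance : One (Aff q) := ⟨⟨1, 0⟩⟩

instance : Inv (Aff q) := ⟨fun x => ⟨x.a⁻¹, -(((x.a⁻¹ : (ZMod q)ˣ) : ZMod q) * x.b)⟩⟩

theorem mul_def (x y : Aff q) : x * y = ⟨x.a * y.a, x.a * y.b + x.b⟩ := rfl

theorem one_def : (1 : Aff q) = ⟨1, 0⟩ := rfl

theorem inv_def (x : Aff q) :
    x⁻¹ = ⟨x.a⁻¹, -(((x.a⁻¹ : (ZMod q)ˣ) : ZMod q) * x.b)⟩ := rfl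

instance : Group (Aff q) where
  mul_assoc x y z := by
    simp only [mul_def, Units.val_mul, Aff.mk.injEq]
    exact ⟨mul_assoc _ _ _, by ring⟩
  one_mul x := by
    simp [mul_def, one_def]
  mul_one x := by
    simp [mul_def, one_def]
  inv_mul_cancel x := by
    simp [mul_def, one_def, inv_def]

/-- as a set -/
def eqv : Aff q ≃ (ZMod q)ˣ × ZMod q where
  toFun x := (x.a, x.b)
  invFun x := ⟨x.1, x.2⟩
  left_inv _ := rfl
  right_inv _ := rfl

instance [NeZero q] : Fintype (Aff q) := Fintype.ofEquiv _ eqv.symm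

/-- the linear part -/
def lin (q : ℕ) : Aff q →* (ZMod q)ˣ where
  toFun x := x.a
  map_one' := rfl
  map_mul' _ _ := rfl

theorem card [Fact q.Prime] : Nat.card (Aff q) = (q - 1) * q := by
  rw [Nat.card_congr eqv, Nat.card_prod, Nat.card_eq_fintype_card, Nat.card_eq_fintype_card,
    ZMod.card, ZMod.card_units_eq_totient, Nat.totient_prime Fact.out]

theorem sum_eq [NeZero q] {M : Type} [AddCommMonoid M] (f : Aff q → M) :
    ∑ x, f x = ∑ a, ∑ b, f ⟨a, b⟩ := by
  rw [Fintype.sum_equiv eqv f (fun x => f ⟨x.1, x.2⟩) (fun _ => rfl), Fintype.sum_prod_type]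

end Aff

/-- subrepresentations of a representation pulled back along a surjection -/
def compSubS {H K V : Type} [Group H] [Group K] [AddCommGroup V] [Module ℂ V] (f : H →* K)
    (hf : Function.Surjective f) (ρ : Representation ℂ K V) :
    Subrepresentation ρ ≃o Subrepresentation (ρ.comp f) where
  toFun U := ⟨U.toSubmodule, fun g v hv => U.apply_mem_toSubmodule (f g) hv⟩
  invFun U := ⟨U.toSubmodule, fun k v hv => by
    obtain ⟨g, rfl⟩ := hf k
    exact U.apply_mem_toSubmodule g hv⟩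
  left_inv U := rfl
  right_inv U := rfl
  map_rel_iff' := Iff.rfl

theorem irr_infl {H K : Type} [Group H] [Group K] (f : H →* K) (hf : Function.Surjective f)
    {χ : K → ℂ} (h : IsIrrChar χ) : IsIrrChar (fun g => χ (f g)) := by
  obtain ⟨V, _, _, _, ρ, hρ, rfl⟩ := h
  exact ⟨V, inferInstance, inferInstance, inferInstance, ρ.comp f,
    (compSubS f hf ρ).isSimpleOrder_iff.1 hρ, rfl⟩

/-- irreducible characters of commutative groups are linear -/
theorem comm_one {U : Type} [CommGroup U] {χ : U → ℂ} (h : IsIrrChar χ) : χ 1 = 1 := by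
  obtain ⟨V, _, _, _, ρ, hρ, rfl⟩ := h
  have h1 : Module.finrank ℂ V = 1 :=
    Representation.IsIrreducible.finrank_eq_one_of_isMulCommutative ρ
  rw [char_one, h1, Nat.cast_one]

section aff

variable {q : ℕ} [hq : Fact q.Prime]

/-- the action of the affine group on functions -/
def permRep (q : ℕ) : Representation ℂ (Aff q) (ZMod q → ℂ) where
  toFun g :=
    { toFun := fun f x => f (((g.a⁻¹ : (ZMod q)ˣ) : ZMod q) * (x - g.b))
      map_add' := fun _ _ => rfl
      map_smul' := fun _ _ => rfl }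
  map_one' := by
    refine LinearMap.ext fun f => funext fun x => ?_
    simp [Aff.one_def]
  map_mul' g h := by
    refine LinearMap.ext fun f => funext fun x => ?_
    change f _ = f _
    congr 1
    simp only [Aff.mul_def, mul_inv, Units.val_mul]
    have : ((g.a⁻¹ : (ZMod q)ˣ) : ZMod q) * (g.a : ZMod q) = 1 := g.a.inv_mul
    linear_combination (-(((h.a⁻¹ : (ZMod q)ˣ) : ZMod q) * h.b)) * this

/-- the Steinberg character of the affine group -/
def st (q : ℕ) (x : Aff q) : ℂ := if x.a = 1 then (if x.b = 0 then (q : ℂ) - 1 else -1) else 0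

theorem permRep_char (g : Aff q) : (permRep q).character g = st q g + 1 := by
  have h1 : (permRep q).character g =
      ∑ x : ZMod q, if ((g.a⁻¹ : (ZMod q)ˣ) : ZMod q) * (x - g.b) = x then (1 : ℂ) else 0 := by
    unfold character
    rw [LinearMap.trace_eq_matrix_trace ℂ (Pi.basisFun ℂ (ZMod q)), Matrix.trace]
    refine Finset.sum_congr rfl fun x _ => ?_
    rw [Matrix.diag_apply, LinearMap.toMatrix_apply]
    simp only [Pi.basisFun_repr, Pi.basisFun_apply]
    change (Pi.single x (1 : ℂ) : ZMod q → ℂ) _ = _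
    rw [Pi.single_apply]
  rw [h1]
  have h2 : ∀ x : ZMod q, (((g.a⁻¹ : (ZMod q)ˣ) : ZMod q) * (x - g.b) = x) ↔
      (g.a : ZMod q) * x + g.b = x := by
    intro x
    have e1 : ((g.a⁻¹ : (ZMod q)ˣ) : ZMod q) * (g.a : ZMod q) = 1 := g.a.inv_mul
    constructor
    · intro h
      linear_combination (g.a : ZMod q) * (-h) + (x - g.b) * e1
    · intro h
      linear_combination (((g.a⁻¹ : (ZMod q)ˣ) : ZMod q)) * (-h) + x * e1
  simp_rw [h2]
  unfold st
  by_cases ha : g.a = 1
  · rw [if_pos ha, ha]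
    by_cases hb : g.b = 0
    · rw [if_pos hb, hb]
      simp [ZMod.card]
    · rw [if_neg hb, Finset.sum_eq_zero]
      · ring
      · intro x _
        rw [if_neg]
        intro h
        apply hb
        rw [Units.val_one] at h
        linear_combination h
  · rw [if_neg ha]
    have h3 : (1 : ZMod q) - g.a ≠ 0 := by
      intro h
      apply ha
      ext
      rw [Units.val_one]
      linear_combination -h
    rw [Finset.sum_eq_single (g.b / (1 - g.a))]
    · rw [if_pos, zero_add]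
      field_simp
      ring
    · intro x _ hx
      rw [if_neg]
      intro h
      apply hx
      rw [eq_div_iff h3]
      linear_combination -h
    · intro h
      exact absurd (Finset.mem_univ _) h

theorem st_class : IsClass (st q) := by
  have h : st q = fun g => (permRep q).character g - 1 := by
    funext g
    rw [permRep_char]
    ring
  intro g y
  rw [h]
  simp only [(permRep q).char_conj g y]

theorem B_st_fun (f : Aff q → ℂ) :
    ∑ g : Aff q, f g * st q g⁻¹ = (q : ℂ) * f 1 - ∑ b : ZMod q, f ⟨1, b⟩ := by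
  rw [Aff.sum_eq, Finset.sum_eq_single (1 : (ZMod q)ˣ)]
  · have h1 : ∀ b : ZMod q, f ⟨1, b⟩ * st q (⟨1, b⟩ : Aff q)⁻¹ =
        (if b = 0 then (q : ℂ) * f ⟨1, b⟩ else 0) - f ⟨1, b⟩ := by
      intro b
      unfold st
      simp only [Aff.inv_def, inv_one, Units.val_one, one_mul, neg_eq_zero, if_true]
      by_cases hb : b = 0
      · rw [if_pos hb, if_pos hb]
        ring
      · rw [if_neg hb, if_neg hb]
        ring
    simp_rw [h1]
    rw [Finset.sum_sub_distrib, Finset.sum_ite_eq' Finset.univ (0 : ZMod q)]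
    simp [Aff.one_def]
  · intro a _ ha
    refine Finset.sum_eq_zero fun b _ => ?_
    unfold st
    rw [Aff.inv_def, if_neg, mul_zero]
    simpa using ha
  · intro h
    exact absurd (Finset.mem_univ _) h

theorem q_ne : (q : ℂ) ≠ 0 := by exact_mod_cast hq.out.ne_zero

theorem q_sub_ne : (q : ℂ) - 1 ≠ 0 := by
  have := hq.out.one_lt
  have h : (q : ℂ) ≠ 1 := by exact_mod_cast this.ne'
  exact sub_ne_zero.mpr h

theorem card_C : (Nat.card (Aff q) : ℂ) = (q - 1) * q := by
  rw [Aff.card, Nat.cast_mul, Nat.cast_sub hq.out.one_le, Nat.cast_one]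

theorem sum_st : ∑ b : ZMod q, st q (⟨1, b⟩ : Aff q) = 0 := by
  have h1 : ∀ b : ZMod q, st q (⟨1, b⟩ : Aff q) = (if b = 0 then (q : ℂ) else 0) - 1 := by
    intro b
    change (if (1 : (ZMod q)ˣ) = 1 then (if b = 0 then (q : ℂ) - 1 else -1) else 0) = _
    rw [if_pos rfl]
    split_ifs <;> ring
  simp_rw [h1]
  rw [Finset.sum_sub_distrib, Finset.sum_ite_eq' Finset.univ (0 : ZMod q)]
  simp [ZMod.card]

theorem st_irr : IsIrrChar (st q) := by
  refine irr_of_norm st_class ?_ ?_ ?_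
  · intro χ hχ
    obtain ⟨W, _, _, _, σ, hσ, rfl⟩ := hχ
    obtain ⟨n, hn⟩ := B_nat (permRep q) σ
    obtain ⟨m, hm⟩ := B_nat (Representation.trivial ℂ (Aff q) ℂ) σ
    have h : st q = (permRep q).character - (Representation.trivial ℂ (Aff q) ℂ).character := by
      funext g
      rw [Pi.sub_apply, permRep_char]
      simp [character]
    refine ⟨(n : ℤ) - m, ?_⟩
    rw [h, B_sub_left, hn, hm]
    push_cast
    rfl
  · unfold B
    rw [B_st_fun, sum_st, card_C]
    have h1 := q_ne (q := q)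
    have h2 := q_sub_ne (q := q)
    simp only [st, Aff.one_def, if_true]
    field_simp
    ring
  · refine ⟨q - 1, ?_⟩
    rw [Nat.cast_sub hq.out.one_le, Nat.cast_one]
    simp [st, Aff.one_def]

theorem lin_surj : Function.Surjective (Aff.lin q) := fun a => ⟨⟨a, 0⟩, rfl⟩

/-- the irreducible characters of the affine group -/
theorem aff_cover {χ : Aff q → ℂ} (hχ : IsIrrChar χ) :
    (∃ ψ : (ZMod q)ˣ → ℂ, IsIrrChar ψ ∧ χ = fun x => ψ (Aff.lin q x)) ∨ χ = st q := by
  by_contra hcon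
  push Not at hcon
  obtain ⟨c1, c2⟩ := hcon
  have hcl := hχ.isClass
  have hcard := cardG_ne (G := Aff q)
  have hz : ∀ ψ : (ZMod q)ˣ → ℂ, IsIrrChar ψ → B χ (fun x => ψ (Aff.lin q x)) = 0 := fun ψ hψ => by
    rw [B_irr hχ (irr_infl _ lin_surj hψ), if_neg (c1 ψ hψ)]
  have hz' : B χ (st q) = 0 := by
    rw [B_irr hχ st_irr, if_neg c2]
  have h1 : (fun a : (ZMod q)ˣ => ∑ b : ZMod q, χ ⟨a, b⟩) = 0 := by
    apply class_eq_zero
    · intro g y
      rw [mul_comm y g, mul_inv_cancel_right]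
    · intro ψ hψ
      have h2 := hz ψ hψ
      unfold B at h2 ⊢
      rcases mul_eq_zero.1 h2 with h3 | h3
      · exact absurd h3 (inv_ne_zero hcard)
      · refine mul_eq_zero.2 (Or.inr ?_)
        rw [← h3, Aff.sum_eq]
        refine Finset.sum_congr rfl fun a _ => ?_
        rw [Finset.sum_mul]
        exact Finset.sum_congr rfl fun b _ => rfl
  have h2 : ∀ (a : (ZMod q)ˣ) (b : ZMod q), a ≠ 1 → χ ⟨a, b⟩ = 0 := by
    intro a b ha
    have h3 : (1 : ZMod q) - a ≠ 0 := by
      intro h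
      apply ha
      ext
      rw [Units.val_one]
      linear_combination -h
    have h4 : ∀ b' : ZMod q, χ ⟨a, b'⟩ = χ ⟨a, b⟩ := by
      intro b'
      have h5 := hcl ⟨a, b⟩ ⟨1, (b' - b) / (1 - a)⟩
      rw [← h5]
      congr 1
      simp only [Aff.mul_def, Aff.inv_def, inv_one, Units.val_one, one_mul, mul_one, Units.val_mul,
        Aff.mk.injEq, true_and]
      field_simp
      ring
    have h5 := congrFun h1 a
    simp only [Pi.zero_apply] at h5
    rw [Finset.sum_congr rfl fun b' _ => h4 b', Finset.sum_const, Finset.card_univ, ZMod.card,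
      nsmul_eq_mul] at h5
    exact (mul_eq_zero.mp h5).resolve_left q_ne
  have h3 : ∀ b : ZMod q, b ≠ 0 → χ ⟨1, b⟩ = χ ⟨1, 1⟩ := by
    intro b hb
    have h5 := hcl ⟨1, 1⟩ ⟨Units.mk0 b hb, 0⟩
    rw [← h5]
    congr 1
    simp [Aff.mul_def, Aff.inv_def]
  have h4 : ∑ b : ZMod q, χ ⟨1, b⟩ = χ 1 + ((q : ℂ) - 1) * χ ⟨1, 1⟩ := by
    have h5 : ∀ b : ZMod q, χ ⟨1, b⟩ = (if b = 0 then χ 1 - χ ⟨1, 1⟩ else 0) + χ ⟨1, 1⟩ := by
      intro b
      by_cases hb : b = 0
      · rw [if_pos hb, hb, Aff.one_def]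
        ring
      · rw [if_neg hb, h3 b hb]
        ring
    rw [Finset.sum_congr rfl fun b _ => h5 b, Finset.sum_add_distrib,
      Finset.sum_ite_eq' Finset.univ (0 : ZMod q)]
    simp [ZMod.card]
    ring
  have h5 := congrFun h1 1
  simp only [Pi.zero_apply] at h5
  have h6 : (q : ℂ) * χ 1 - ∑ b : ZMod q, χ ⟨1, b⟩ = 0 := by
    rw [← B_st_fun]
    unfold B at hz'
    exact (mul_eq_zero.1 hz').resolve_left (inv_ne_zero hcard)
  rw [h5, sub_zero] at h6
  have h7 : χ 1 = 0 := (mul_eq_zero.mp h6).resolve_left q_ne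
  obtain ⟨n, hn, hn'⟩ := deg_pos hχ
  rw [h7] at hn'
  have : (n : ℂ) ≠ 0 := by exact_mod_cast hn.ne'
  exact this hn'.symm

theorem Irr_aff : Irr (Aff q) =
    insert (st q) ((Irr (ZMod q)ˣ).image fun ψ x => ψ (Aff.lin q x)) := by
  ext χ
  simp only [Finset.mem_insert, Finset.mem_image, mem_Irr]
  constructor
  · intro h
    rcases aff_cover h with ⟨ψ, h1, rfl⟩ | h
    · exact Or.inr ⟨ψ, h1, rfl⟩
    · exact Or.inl h
  · rintro (rfl | ⟨ψ, h1, rfl⟩)
    · exact st_irr
    · exact irr_infl _ lin_surj h1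

theorem st_not_mem : st q ∉ (Irr (ZMod q)ˣ).image fun ψ x => ψ (Aff.lin q x) := by
  intro h
  obtain ⟨ψ, -, h⟩ := Finset.mem_image.mp h
  have h1 := congrFun h (⟨1, 0⟩ : Aff q)
  have h2 := congrFun h (⟨1, 1⟩ : Aff q)
  have h3 : Aff.lin q ⟨1, 0⟩ = Aff.lin q ⟨1, 1⟩ := rfl
  rw [h3] at h1
  rw [h1] at h2
  simp only [st, if_true, one_ne_zero, if_false] at h2
  apply q_ne (q := q)
  linear_combination h2

theorem sum_aff {M : Type} [AddCommMonoid M] (f : (Aff q → ℂ) → M) :
    ∑ χ ∈ Irr (Aff q), f χ =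
      f (st q) + ∑ ψ ∈ Irr (ZMod q)ˣ, f (fun x => ψ (Aff.lin q x)) := by
  rw [Irr_aff, Finset.sum_insert st_not_mem, Finset.sum_image]
  intro ψ _ ψ' _ h
  funext a
  exact congrFun h (⟨a, 0⟩ : Aff q)

end aff

section prod

variable {p e : ℕ} [Fact p.Prime]

theorem v_ten {G H : Type} [Group G] [Group H] [Finite G] [Finite H] {θ : G → ℂ} {ψ : H → ℂ}
    (h1 : IsIrrChar θ) (h2 : IsIrrChar ψ) : v p e (ten θ ψ) = v p e θ * v p e ψ := by
  have h3 : ten θ ψ 1 = ((dg θ * dg ψ : ℕ) : ℂ) := by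
    change θ 1 * ψ 1 = _
    rw [dg_spec h1, dg_spec h2]; push_cast; ring
  unfold v
  rw [dg_eq h3]
  push_cast
  ring

theorem v_st {q : ℕ} [hq : Fact q.Prime] : v p e (st q) = ((q : ZMod p) - 1) ^ e := by
  have h : st q 1 = ((q - 1 : ℕ) : ℂ) := by
    rw [Nat.cast_sub hq.out.one_le, Nat.cast_one]
    simp [st, Aff.one_def]
  unfold v
  rw [dg_eq h, Nat.cast_sub hq.out.one_le, Nat.cast_one]

theorem v_lin {q : ℕ} [hq : Fact q.Prime] {ψ : (ZMod q)ˣ → ℂ} (h : IsIrrChar ψ) :
    v p e (fun x : Aff q => ψ (Aff.lin q x)) = 1 := by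
  have h1 : (fun x : Aff q => ψ (Aff.lin q x)) 1 = ((1 : ℕ) : ℂ) := by
    simp only [map_one]
    rw [comm_one h, Nat.cast_one]
  unfold v
  rw [dg_eq (χ := fun x : Aff q => ψ (Aff.lin q x)) h1, Nat.cast_one, one_pow]

/-- **Characters of degree `±1` modulo `p` of `G × AGL(1, q)`.** -/
theorem cnt_aff (G : Type) [Group G] [Finite G] {q : ℕ} [hq : Fact q.Prime]
    (hne : ((q : ZMod p) - 1) ≠ 0) :
    cnt p e 1 (G × Aff q) =
      cnt p e (((q : ZMod p) - 1) ^ e)⁻¹ G + (Irr (ZMod q)ˣ).card * cnt p e 1 G := by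
  have := Fintype.ofFinite G
  have h1 : cnt p e 1 (G × Aff q) = ∑ ψ ∈ Irr (Aff q),
      Nat.card {θ : G → ℂ // IsIrrChar θ ∧ v p e θ * v p e ψ = 1} *
        Nat.card {ψ' : Aff q → ℂ // IsIrrChar ψ' ∧ ψ' = ψ} := by
    unfold cnt
    refine card_prod (Irr (Aff q)) (fun χ => v p e χ = 1) (fun ψ θ => v p e θ * v p e ψ = 1)
      (fun ψ ψ' => ψ' = ψ) ?_ ?_
    · intro θ ψ h1 h2
      rw [v_ten h1 h2]
      constructor
      · intro h
        exact ⟨ψ, mem_Irr.mpr h2, h, rfl⟩
      · rintro ⟨i, -, h, rfl⟩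
        exact h
    · intro θ ψ i _ j _ _ h _ h'
      exact h.symm.trans h'
  have h2 : ∀ ψ ∈ Irr (Aff q), Nat.card {ψ' : Aff q → ℂ // IsIrrChar ψ' ∧ ψ' = ψ} = 1 := by
    intro ψ hψ
    rw [Nat.card_eq_one_iff_unique]
    refine ⟨⟨?_⟩, ⟨ψ, mem_Irr.mp hψ, rfl⟩⟩
    rintro ⟨x, _, hx⟩ ⟨y, _, hy⟩
    exact Subtype.ext (hx.trans hy.symm)
  rw [h1, Finset.sum_congr rfl fun ψ hψ => by rw [h2 ψ hψ, mul_one], sum_aff]
  congr 1
  · unfold cnt
    refine Nat.card_congr (Equiv.subtypeEquivRight fun θ => and_congr_right fun _ => ?_)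
    rw [v_st]
    exact mul_eq_one_iff_eq_inv₀ (pow_ne_zero _ hne)
  · rw [Finset.sum_const_nat (m := cnt p e 1 G)]
    intro ψ hψ
    unfold cnt
    rw [v_lin (mem_Irr.mp hψ)]
    simp only [mul_one]

end prod

/-! ### Sylow subgroups of `G × H`, `p` prime to `|H|` -/

section syl

variable {p : ℕ} [hp : Fact p.Prime] {G H : Type} [Group G] [Group H]

theorem mem_normalizer_prod {P : Subgroup G} {x : G × H} :
    x ∈ Subgroup.normalizer ((P.prod ⊥ : Subgroup (G × H)) : Set (G × H)) ↔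
      x.1 ∈ Subgroup.normalizer (P : Set G) := by
  rw [mem_normalizer, mem_normalizer]
  constructor
  · intro h g
    have h1 := h (g, 1)
    simpa [Subgroup.mem_prod] using h1
  · rintro h ⟨g, k⟩
    simp only [Subgroup.mem_prod, Subgroup.mem_bot, Prod.fst_mul, Prod.snd_mul, Prod.fst_inv,
      Prod.snd_inv]
    rw [h g]
    refine and_congr_right fun _ => ?_
    constructor
    · intro hk
      rw [hk]
      group
    · intro hk
      have := congrArg (fun z => x.2⁻¹ * z * x.2) hk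
      simpa [mul_assoc] using this

/-- the normalizer of `P × 1` -/
def prodNorm (P : Subgroup G) :
    Subgroup.normalizer ((P.prod ⊥ : Subgroup (G × H)) : Set (G × H)) ≃*
      (Subgroup.normalizer (P : Set G)) × H where
  toFun x := (⟨x.1.1, mem_normalizer_prod.mp x.2⟩, x.1.2)
  invFun y := ⟨(y.1.1, y.2), mem_normalizer_prod.mpr y.1.2⟩
  left_inv _ := rfl
  right_inv _ := rfl
  map_mul' _ _ := rfl

theorem exists_sylow_prod [Finite G] [Finite H] (h : ¬ p ∣ Nat.card H) (P : Sylow p G) :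
    ∃ Q : Sylow p (G × H), (Q : Subgroup (G × H)) = (P : Subgroup G).prod ⊥ := by
  have h1 : IsPGroup p ((P : Subgroup G).prod (⊥ : Subgroup H)) := by
    rintro ⟨x, hx⟩
    obtain ⟨m, hm⟩ := P.isPGroup' ⟨x.1, (Subgroup.mem_prod.mp hx).1⟩
    refine ⟨m, ?_⟩
    apply Subtype.ext
    change x ^ p ^ m = 1
    refine Prod.ext (congrArg Subtype.val hm) ?_
    rw [Prod.pow_snd, Subgroup.mem_bot.mp (Subgroup.mem_prod.mp hx).2, one_pow]
    rfl
  refine ⟨h1.toSylow ?_, rfl⟩
  rw [Subgroup.index_prod, Subgroup.index_bot]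
  intro h2
  rcases (Nat.Prime.dvd_mul hp.out).mp h2 with h3 | h3
  · exact P.not_dvd_index h3
  · exact h h3

end syl

end Pool.Agent.ZH17.IN
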