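import Pool.Agent.Q90.WR.Fix
import Pool.Agent.Q99.AS.Char

/-!
# Numbers of irreducible characters with given degree modulo `p`
-/

set_option autoImplicit false

open scoped BigOperators Classical

noncomputable section

namespace Pool.Agent.ZH17.IN

open Pool.Agent.Helper884.IC
open Pool.Agent.Q90.WR
open Pool.Agent.Q99.AS (ten ten_irr ten_cover ten_inj card_prod)

/-- the degree -/
def dg {G : Type} [Group G] (χ : G → ℂ) : ℕ :=
  if h : ∃ n : ℕ, χ 1 = n then h.choose else 0

theorem dg_eq {G : Type} [Group G] {χ : G → ℂ} {n : ℕ} (h : χ 1 = n) : dg χ = n := by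
  have h' : ∃ n : ℕ, χ 1 = n := ⟨n, h⟩
  unfold dg
  rw [dif_pos h']
  have := h'.choose_spec
  exact_mod_cast this.symm.trans h

theorem dg_spec {G : Type} [Group G] [Finite G] {χ : G → ℂ} (h : IsIrrChar χ) : χ 1 = dg χ := by
  have := Fintype.ofFinite G
  obtain ⟨n, _, hn⟩ := deg_pos h
  rw [dg_eq hn, hn]

/-- the `e`-th power of the degree modulo `p` -/
def v (p e : ℕ) {G : Type} [Group G] (χ : G → ℂ) : ZMod p := (dg χ : ZMod p) ^ e

/-- the number of irreducible characters `χ` of `G` with `χ(1)^e = c` modulo `p` -/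
def cnt (p e : ℕ) (c : ZMod p) (G : Type) [Group G] : ℕ :=
  Nat.card {χ : G → ℂ // IsIrrChar χ ∧ v p e χ = c}

theorem cnt_congr {H K : Type} [Group H] [Group K] (f : H ≃* K) (p e : ℕ) (c : ZMod p) :
    cnt p e c H = cnt p e c K := by
  unfold cnt
  rw [card_transport f]
  refine Nat.card_congr (Equiv.subtypeEquivRight fun χ => and_congr_right fun _ => ?_)
  have : v p e (fun g => χ (f g)) = v p e χ := by
    unfold v dg
    simp only [map_one]
  rw [this]

section

variable {p e : ℕ} [Fact p.Prime] {G : Type} [Group G] [Fintype G]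

theorem cnt_eq (c : ZMod p) : cnt p e c G = ((Irr G).filter fun χ => v p e χ = c).card :=
  card_filter_eq _

theorem sum_one (R : ZMod p → Prop) [DecidablePred R] :
    ((Irr G).filter fun χ => R (v p e χ)).card =
      ∑ a ∈ Finset.univ.filter R, cnt p e a G := by
  rw [Finset.card_eq_sum_card_fiberwise (f := fun χ => v p e χ) (t := Finset.univ.filter R)]
  · refine Finset.sum_congr rfl fun a ha => ?_
    rw [cnt_eq, Finset.filter_filter]
    congr 1
    ext χ
    simp only [Finset.mem_filter, Finset.mem_univ, true_and] at ha ⊢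
    constructor
    · rintro ⟨h1, h2, h3⟩
      exact ⟨h1, h3⟩
    · rintro ⟨h1, h3⟩
      exact ⟨h1, by rw [h3]; exact ha, h3⟩
  · intro χ hχ
    simp only [Finset.coe_filter, Set.mem_setOf_eq, Finset.mem_univ, true_and] at hχ ⊢
    exact hχ.2

end

end Pool.Agent.ZH17.IN
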