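import Mathlib

/-!
# Sums over tuples with given product, modulo powers of a prime
-/

set_option autoImplicit false
set_option maxHeartbeats 400000

open scoped BigOperators

noncomputable section

namespace Pool.Agent.ZH17.IN

theorem pow_dvd_step {R : Type} [CommRing R] {q j : ℕ} {a b : R}
    (h : (q : R) ^ (j + 1) ∣ a - b) : (q : R) ^ (j + 2) ∣ a ^ q - b ^ q := by
  have h1 : (q : R) ∣ ∑ i ∈ Finset.range q, a ^ i * b ^ (q - 1 - i) := by
    have h2 : (q : R) ∣ a - b := (dvd_pow_self (q : R) (Nat.succ_ne_zero j)).trans h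
    have h3 : ∀ i ∈ Finset.range q, a ^ i * b ^ (q - 1 - i) =
        (a ^ i - b ^ i) * b ^ (q - 1 - i) + b ^ (q - 1) := by
      intro i hi
      rw [Finset.mem_range] at hi
      rw [sub_mul, ← pow_add b, show i + (q - 1 - i) = q - 1 by omega]
      ring
    rw [Finset.sum_congr rfl h3, Finset.sum_add_distrib, Finset.sum_const, Finset.card_range,
      nsmul_eq_mul]
    exact dvd_add (Finset.dvd_sum fun i _ => (h2.trans (sub_dvd_pow_sub_pow a b i)).mul_right _)
      (dvd_mul_right _ _)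
  have h4 : a ^ q - b ^ q = (∑ i ∈ Finset.range q, a ^ i * b ^ (q - 1 - i)) * (a - b) :=
    ((Commute.all a b).geom_sum₂_mul q).symm
  rw [h4, show j + 2 = 1 + (j + 1) by omega, pow_add, pow_one]
  exact mul_dvd_mul h1 h

section

variable {p q : ℕ} [NeZero p] [NeZero q]

/-- the sum over the tuples with product `w` -/
def Tsum (q : ℕ) [NeZero q] (x : ZMod p → ℤ) (w : ZMod p) : ℤ :=
  ∑ a ∈ Finset.univ.filter (fun a : ZMod q → ZMod p => ∏ i, a i = w), ∏ i, x (a i)

/-- the generating element -/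
def gen (x : ZMod p → ℤ) : MonoidAlgebra ℤ (ZMod p) := ∑ a : ZMod p, MonoidAlgebra.single a (x a)

theorem prod_single {ι : Type} (s : Finset ι) (a : ι → ZMod p) (r : ι → ℤ) :
    ∏ i ∈ s, (MonoidAlgebra.single (a i) (r i) : MonoidAlgebra ℤ (ZMod p)) =
      MonoidAlgebra.single (∏ i ∈ s, a i) (∏ i ∈ s, r i) := by
  classical
  induction s using Finset.induction_on with
  | empty => simp [MonoidAlgebra.one_def]
  | insert b s hb ih =>
    rw [Finset.prod_insert hb, Finset.prod_insert hb, Finset.prod_insert hb, ih,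
      MonoidAlgebra.single_mul_single]

theorem Tsum_coeff (x : ZMod p → ℤ) (w : ZMod p) :
    Tsum q x w = (gen x ^ q).coeff w := by
  have h1 : gen x ^ q = ∑ a : ZMod q → ZMod p,
      MonoidAlgebra.single (∏ i, a i) (∏ i, x (a i)) := by
    have h2 : gen x ^ q = ∏ _i : ZMod q, gen x := by
      rw [Finset.prod_const, Finset.card_univ, ZMod.card]
    rw [h2]
    unfold gen
    rw [Finset.prod_univ_sum, Fintype.piFinset_univ]
    exact Finset.sum_congr rfl fun a _ => prod_single _ _ _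
  rw [h1, MonoidAlgebra.coeff_sum, Finset.sum_apply']
  unfold Tsum
  rw [Finset.sum_filter]
  refine Finset.sum_congr rfl fun a _ => ?_
  rw [MonoidAlgebra.coeff_single, Finsupp.single_apply]

theorem gen_dvd {x y : ZMod p → ℤ} {m : ℕ} (h : ∀ a, (m : ℤ) ∣ x a - y a) :
    (m : MonoidAlgebra ℤ (ZMod p)) ∣ gen x - gen y := by
  unfold gen
  rw [← Finset.sum_sub_distrib]
  refine Finset.dvd_sum fun a _ => ?_
  obtain ⟨k, hk⟩ := h a
  refine ⟨MonoidAlgebra.single a k, ?_⟩
  rw [← nsmul_eq_mul]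
  apply MonoidAlgebra.coeff_injective
  ext b
  have h1 : (MonoidAlgebra.single a (x a) - MonoidAlgebra.single a (y a) :
      MonoidAlgebra ℤ (ZMod p)) = MonoidAlgebra.single a (x a - y a) := by
    rw [MonoidAlgebra.single_sub]
  rw [h1, hk, MonoidAlgebra.coeff_smul, MonoidAlgebra.coeff_single, MonoidAlgebra.coeff_single,
    Finsupp.smul_single, nsmul_eq_mul]

theorem coeff_dvd {m : ℕ} {z : MonoidAlgebra ℤ (ZMod p)}
    (h : (m : MonoidAlgebra ℤ (ZMod p)) ∣ z) (w : ZMod p) : (m : ℤ) ∣ z.coeff w := by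
  obtain ⟨y, rfl⟩ := h
  rw [← nsmul_eq_mul, MonoidAlgebra.coeff_smul, Finsupp.smul_apply, nsmul_eq_mul]
  exact dvd_mul_right _ _

theorem Tsum_step {x y : ZMod p → ℤ} {j : ℕ} (h : ∀ a, a ≠ 0 → (q : ℤ) ^ (j + 1) ∣ x a - y a)
    {w : ZMod p} (hw : w ≠ 0) : (q : ℤ) ^ (j + 2) ∣ Tsum q x w - Tsum q y w := by
  classical
  have key : ∀ z : ZMod p → ℤ, Tsum q z w = Tsum q (fun a => if a = 0 then 0 else z a) w := by
    intro z
    unfold Tsum
    refine Finset.sum_congr rfl fun a ha => Finset.prod_congr rfl fun i _ => ?_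
    rw [Finset.mem_filter] at ha
    have hne : a i ≠ 0 := by
      intro h0
      apply hw
      rw [← ha.2]
      exact Finset.prod_eq_zero (Finset.mem_univ i) h0
    exact (if_neg hne).symm
  rw [key x, key y, Tsum_coeff, Tsum_coeff]
  have h1 : ((q ^ (j + 1) : ℕ) : MonoidAlgebra ℤ (ZMod p)) ∣
      gen (fun a => if a = 0 then 0 else x a) - gen (fun a => if a = 0 then 0 else y a) := by
    apply gen_dvd
    intro a
    by_cases ha : a = 0
    · rw [if_pos ha, if_pos ha, sub_self]
      exact dvd_zero _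
    · rw [if_neg ha, if_neg ha]
      push_cast
      exact h a ha
  rw [Nat.cast_pow] at h1
  have h2 := pow_dvd_step h1
  rw [← Nat.cast_pow] at h2
  have h3 := coeff_dvd h2 w
  rw [MonoidAlgebra.coeff_sub, Finsupp.sub_apply] at h3
  exact_mod_cast h3

end

end Pool.Agent.ZH17.IN
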