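import Pool.Agent.ZH17.IN.Ext
import Pool.Agent.ZH17.IN.Pow

/-!
# Degrees modulo `p` of the irreducible characters of `G ≀ C_q`
-/

set_option autoImplicit false
set_option maxHeartbeats 400000

open scoped BigOperators Classical

noncomputable section

namespace Pool.Agent.ZH17.IN

open Pool.Agent.Helper884.IC Representation
open Pool.Agent.Q90.WR (irr_of_norm B_nat deg_pos irr_comp irr_comp_iff irr_nontrivial
  card_filter_eq)

section

variable {q : ℕ} [hq : Fact q.Prime] {G : Type} [Group G] [Fintype G]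

/-- the tuples of irreducible characters -/
def Tup (q : ℕ) [Fact q.Prime] (G : Type) [Group G] [Fintype G] : Finset (ZMod q → G → ℂ) :=
  Fintype.piFinset fun _ => Irr G

theorem mem_Tup {θ : ZMod q → G → ℂ} : θ ∈ Tup q G ↔ ∀ i, IsIrrChar (θ i) := by
  unfold Tup
  rw [Fintype.mem_piFinset]
  exact forall_congr' fun i => mem_Irr

theorem shift_NC {α : Type} {θ : ZMod q → α} (h : NC θ) (t : ZMod q) :
    NC (fun i => θ (i + t)) := by
  intro s hs h1
  apply h s hs
  funext i
  have h2 := congrFun h1 (i - t)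
  simp only at h2
  rw [sub_add_cancel] at h2
  rw [← h2]
  congr 1
  ring

theorem ind_shift (θ : ZMod q → G → ℂ) (t : ZMod q) : ind (fun i => θ (i + t)) = ind θ := by
  funext x
  unfold ind
  by_cases hs : x.s = 0
  · rw [if_pos hs, if_pos hs]
    refine Fintype.sum_equiv (Equiv.addRight t) _ _ fun s => ?_
    congr 1
    funext i
    change θ (i + s + t) = θ (i + (s + t))
    rw [add_assoc]
  · rw [if_neg hs, if_neg hs]

theorem Irr_wq : Irr (Wq q G) = ((Tup q G).filter NC).image ind ∪
    (Finset.univ ×ˢ Irr G).image fun t : ZMod q × (G → ℂ) => extC t.1 t.2 := by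
  ext χ
  simp only [Finset.mem_union, Finset.mem_image, Finset.mem_filter, mem_Tup, mem_Irr,
    Finset.mem_product, Finset.mem_univ, true_and, Prod.exists]
  constructor
  · intro h
    rcases wq_cover h with ⟨θ, h1, h2, rfl⟩ | ⟨θ, j, h1, rfl⟩
    · exact Or.inl ⟨θ, ⟨h1, h2⟩, rfl⟩
    · exact Or.inr ⟨j, θ, h1, rfl⟩
  · rintro (⟨θ, ⟨h1, h2⟩, rfl⟩ | ⟨j, θ, h1, rfl⟩)
    · exact ind_irr h1 h2
    · exact extC_irr h1 j

/-- the number of irreducible characters of `G ≀ C_q` with a given property -/
theorem countQ (Q : (Wq q G → ℂ) → Prop) :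
    q * ((Irr (Wq q G)).filter Q).card =
      ((Tup q G).filter fun θ => NC θ ∧ Q (ind θ)).card +
        q * ((Finset.univ ×ˢ Irr G).filter fun t : ZMod q × (G → ℂ) => Q (extC t.1 t.2)).card := by
  have hd : Disjoint (((Tup q G).filter NC).image ind)
      ((Finset.univ ×ˢ Irr G).image fun t : ZMod q × (G → ℂ) => extC t.1 t.2) := by
    rw [Finset.disjoint_left]
    intro χ h1 h2
    obtain ⟨θ, hθ, rfl⟩ := Finset.mem_image.mp h1
    obtain ⟨t, ht, h⟩ := Finset.mem_image.mp h2
    rw [Finset.mem_filter, mem_Tup] at hθ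
    rw [Finset.mem_product, mem_Irr] at ht
    exact ind_ne_extC hθ.1 hθ.2 ht.2 t.1 h.symm
  rw [Irr_wq, Finset.filter_union, Finset.card_union_of_disjoint
    (Finset.disjoint_of_subset_left (Finset.filter_subset _ _)
      (Finset.disjoint_of_subset_right (Finset.filter_subset _ _) hd)),
    Finset.filter_image, Finset.filter_image, Finset.filter_filter,
    Finset.card_image_of_injOn (s := (Finset.univ ×ˢ Irr G).filter
      fun t : ZMod q × (G → ℂ) => Q (extC t.1 t.2))]
  · have h1 : ((Tup q G).filter fun θ => NC θ ∧ Q (ind θ)).card =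
        q * (((Tup q G).filter fun θ => NC θ ∧ Q (ind θ)).image ind).card := by
      rw [Finset.card_eq_sum_card_image (fun θ : ZMod q → G → ℂ => ind θ),
        Finset.sum_const_nat (m := q), mul_comm]
      intro χ hχ
      obtain ⟨θ, hθ, rfl⟩ := Finset.mem_image.mp hχ
      rw [Finset.mem_filter, mem_Tup] at hθ
      obtain ⟨h1, h2, hQ⟩ := hθ
      have h3 : ((Tup q G).filter fun θ => NC θ ∧ Q (ind θ)).filter (fun ψ => ind ψ = ind θ) =
          (Finset.univ : Finset (ZMod q)).image fun t i => θ (i + t) := by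
        ext ψ
        simp only [Finset.mem_filter, mem_Tup, Finset.mem_image, Finset.mem_univ, true_and]
        constructor
        · rintro ⟨⟨h4, h5, h6⟩, h7⟩
          refine ind_eq h1 h4 ?_
          rw [h7, ind_norm h1 h2]
          exact one_ne_zero
        · rintro ⟨t, rfl⟩
          rw [ind_shift]
          exact ⟨⟨fun i => h1 _, shift_NC h2 t, hQ⟩, rfl⟩
      rw [h3, Finset.card_image_of_injective, Finset.card_univ, ZMod.card]
      intro s t hst
      by_contra hne
      apply h2 (s - t) (sub_ne_zero.mpr hne)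
      funext i
      have h4 := congrFun hst (i - t)
      simp only at h4
      rw [sub_add_cancel] at h4
      rw [← h4]
      congr 1
      ring
    rw [mul_add, h1]
  · rintro ⟨j, θ⟩ h1 ⟨k, ψ⟩ h2 h
    rw [Finset.mem_coe, Finset.mem_filter, Finset.mem_product, mem_Irr] at h1 h2
    obtain ⟨e1, e2⟩ := extC_inj h1.1.2 h2.1.2 h
    exact Prod.ext e2 e1

variable {p e : ℕ} [hp : Fact p.Prime]

theorem v_ind {θ : ZMod q → G → ℂ} (h : ∀ i, IsIrrChar (θ i)) :
    v p e (ind θ) = (q : ZMod p) ^ e * ∏ i, v p e (θ i) := by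
  have h3 : ind θ 1 = ((q * ∏ i, dg (θ i) : ℕ) : ℂ) := by
    rw [ind_one]
    push_cast
    congr 1
    exact Finset.prod_congr rfl fun i _ => dg_spec (h i)
  unfold v
  rw [dg_eq h3]
  push_cast
  rw [mul_pow, Finset.prod_pow]

theorem v_extC {θ : G → ℂ} (h : IsIrrChar θ) (j : ZMod q) :
    v p e (extC j θ) = v p e θ ^ q := by
  have h3 : extC j θ 1 = ((dg θ ^ q : ℕ) : ℂ) := by
    have h4 := congrFun (rs_extC h j) 1
    change extC j θ 1 = _ at h4
    rw [h4]
    unfold tens
    simp only [Pi.one_apply, Finset.prod_const, Finset.card_univ, ZMod.card]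
    rw [dg_spec h]
    push_cast
    rfl
  unfold v
  rw [dg_eq h3]
  push_cast
  ring

/-- tuples with given values -/
theorem sum_tup (R : (ZMod q → ZMod p) → Prop) [DecidablePred R] :
    ((Tup q G).filter fun θ => R fun i => v p e (θ i)).card =
      ∑ a ∈ Finset.univ.filter R, ∏ i, cnt p e (a i) G := by
  rw [Finset.card_eq_sum_card_fiberwise (f := fun θ i => v p e (θ i))
    (t := Finset.univ.filter R)]
  · refine Finset.sum_congr rfl fun a ha => ?_
    have h1 : ∏ i, cnt p e (a i) G =
        (Fintype.piFinset fun i => (Irr G).filter fun χ => v p e χ = a i).card := by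
      rw [Fintype.card_piFinset]
      exact Finset.prod_congr rfl fun i _ => cnt_eq _
    rw [h1, Finset.filter_filter]
    congr 1
    ext θ
    simp only [Finset.mem_filter, Finset.mem_univ, true_and, Fintype.mem_piFinset, mem_Tup,
      mem_Irr] at ha ⊢
    constructor
    · rintro ⟨h2, h3, h4⟩ i
      exact ⟨h2 i, congrFun h4 i⟩
    · intro h2
      have h3 : (fun i => v p e (θ i)) = a := funext fun i => (h2 i).2
      exact ⟨fun i => (h2 i).1, by rw [h3]; exact ha, h3⟩
  · intro θ hθ
    simp only [Finset.coe_filter, Set.mem_setOf_eq, Finset.mem_univ, true_and] at hθ ⊢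
    exact hθ.2

/-- **Characters of `G ≀ C_q` with given degree modulo `p`.** -/
theorem cnt_wq (c : ZMod p) :
    q * cnt p e c (Wq q G) + ∑ a ∈ Finset.univ.filter (fun a : ZMod p => (q : ZMod p) ^ e * a ^ q = c),
        cnt p e a G =
      ∑ a ∈ Finset.univ.filter (fun a : ZMod q → ZMod p => (q : ZMod p) ^ e * ∏ i, a i = c),
        ∏ i, cnt p e (a i) G +
      q * (q * ∑ a ∈ Finset.univ.filter (fun a : ZMod p => a ^ q = c), cnt p e a G) := by
  have key := countQ (q := q) (G := G) (fun χ => v p e χ = c)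
  rw [← card_filter_eq] at key
  change q * cnt p e c (Wq q G) = _ at key
  rw [← sum_tup (q := q) (G := G) (e := e) (fun a => (q : ZMod p) ^ e * ∏ i, a i = c),
    ← sum_one (G := G) (e := e) (fun a => a ^ q = c),
    ← sum_one (G := G) (e := e) (fun a => (q : ZMod p) ^ e * a ^ q = c), key]
  have h1 : ∀ d : DecidablePred (fun θ : ZMod q → G → ℂ => NC θ ∧ v p e (ind θ) = c),
      @Finset.filter _ _ d (Tup q G) =
      (Tup q G).filter (fun θ => NC θ ∧ (q : ZMod p) ^ e * ∏ i, v p e (θ i) = c) := by
    intro d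
    ext θ
    simp only [Finset.mem_filter]
    refine and_congr_right fun ht => ?_
    rw [v_ind (mem_Tup.mp ht)]
  have h2 : ∀ d : DecidablePred (fun t : ZMod q × (G → ℂ) => v p e (extC t.1 t.2) = c),
      (@Finset.filter _ _ d ((Finset.univ : Finset (ZMod q)) ×ˢ Irr G)).card =
      q * ((Irr G).filter fun θ => v p e θ ^ q = c).card := by
    intro d
    have h3 : (@Finset.filter _ _ d ((Finset.univ : Finset (ZMod q)) ×ˢ Irr G)) =
        (Finset.univ : Finset (ZMod q)) ×ˢ ((Irr G).filter fun θ => v p e θ ^ q = c) := by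
      ext t
      simp only [Finset.mem_filter, Finset.mem_product, Finset.mem_univ, true_and, mem_Irr]
      refine and_congr_right fun ht => ?_
      rw [v_extC ht]
    rw [h3, Finset.card_product, Finset.card_univ, ZMod.card]
  have h3 : ((Tup q G).filter fun θ => (q : ZMod p) ^ e * ∏ i, v p e (θ i) = c).card =
      ((Tup q G).filter (fun θ => NC θ ∧ (q : ZMod p) ^ e * ∏ i, v p e (θ i) = c)).card +
      ((Irr G).filter fun θ => (q : ZMod p) ^ e * v p e θ ^ q = c).card := by
    rw [← Finset.card_filter_add_card_filter_not (s := (Tup q G).filter fun θ =>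
      (q : ZMod p) ^ e * ∏ i, v p e (θ i) = c) NC, Finset.filter_filter, Finset.filter_filter]
    congr 1
    · congr 1
      ext θ
      simp only [Finset.mem_filter]
      tauto
    · refine Finset.card_bij' (fun θ _ => θ 0) (fun θ _ _ => θ) ?_ ?_ ?_ ?_
      · intro θ hθ
        simp only [Finset.mem_filter, mem_Tup, mem_Irr] at hθ ⊢
        obtain ⟨h4, h5, h6⟩ := hθ
        refine ⟨h4 0, ?_⟩
        have h7 := (nc_or θ).resolve_left h6
        rw [← h5]
        congr 1
        rw [Finset.prod_congr rfl fun i _ => by rw [h7 i], Finset.prod_const, Finset.card_univ,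
          ZMod.card]
      · intro θ hθ
        simp only [Finset.mem_filter, mem_Tup, mem_Irr] at hθ ⊢
        refine ⟨fun _ => hθ.1, ?_, fun h => h 1 one_ne_zero rfl⟩
        rw [Finset.prod_const, Finset.card_univ, ZMod.card]
        exact hθ.2
      · intro θ hθ
        simp only [Finset.mem_filter, mem_Tup] at hθ
        have h7 := (nc_or θ).resolve_left hθ.2.2
        exact (funext h7).symm
      · intro θ _
        rfl
  rw [h1, h2]
  simp only
  rw [h3]
  ring

end

end Pool.Agent.ZH17.IN
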