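import Pool.Agent.ZH17.IN.Ind

/-!
# Irreducible characters of `G ≀ C_q`: the extensions
-/

set_option autoImplicit false
set_option maxHeartbeats 400000

open scoped BigOperators Classical

noncomputable section

namespace Pool.Agent.ZH17.IN

open Pool.Agent.Helper884.IC Representation
open Pool.Agent.Q90.WR (irr_of_norm B_nat deg_pos irr_comp irr_comp_iff irr_nontrivial)

/-! ### a character with irreducible restriction is irreducible -/

section res

variable {K H V : Type} [Group K] [Group H] [AddCommGroup V] [Module ℂ V]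

/-- restriction of intertwining maps -/
def resMap (φ : K →* H) (ρ : Representation ℂ H V) :
    IntertwiningMap ρ ρ →ₗ[ℂ] IntertwiningMap (ρ.comp φ) (ρ.comp φ) where
  toFun f := ⟨f.toLinearMap, fun k => f.isIntertwining' (φ k)⟩
  map_add' _ _ := rfl
  map_smul' _ _ := rfl

theorem resMap_inj (φ : K →* H) (ρ : Representation ℂ H V) : Function.Injective (resMap φ ρ) := by
  intro f g h
  exact IntertwiningMap.ext
    (congrArg (fun F : IntertwiningMap (ρ.comp φ) (ρ.comp φ) => F.toLinearMap) h)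

theorem irr_of_res [Finite K] [Finite H] [FiniteDimensional ℂ V] (φ : K →* H)
    (ρ : Representation ℂ H V) (h : IsIrrChar (fun k => ρ.character (φ k))) :
    IsIrrChar ρ.character := by
  have := Fintype.ofFinite K
  have := Fintype.ofFinite H
  have i1 : Invertible (Nat.card K : ℂ) := invertibleOfNonzero cardG_ne
  have i2 : Invertible (Nat.card H : ℂ) := invertibleOfNonzero cardG_ne
  have h1 := B_irr h h
  rw [if_pos rfl] at h1
  have h2 : B (Representation.character (ρ.comp φ : Representation ℂ K V))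
      (Representation.character (ρ.comp φ : Representation ℂ K V)) =
      (Module.finrank ℂ (IntertwiningMap (ρ.comp φ) (ρ.comp φ)) : ℂ) :=
    card_inv_mul_sum_char_mul_char_eq_finrank (ρ.comp φ) (ρ.comp φ)
  have h3 : B ρ.character ρ.character = (Module.finrank ℂ (IntertwiningMap ρ ρ) : ℂ) :=
    card_inv_mul_sum_char_mul_char_eq_finrank ρ ρ
  have h4 : Module.finrank ℂ (IntertwiningMap (ρ.comp φ) (ρ.comp φ)) = 1 := by
    have h5 : ((Module.finrank ℂ (IntertwiningMap (ρ.comp φ) (ρ.comp φ)) : ℕ) : ℂ) = 1 := by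
      rw [← h2]
      exact h1
    exact_mod_cast h5
  have hf : Module.Finite ℂ (IntertwiningMap (ρ.comp φ) (ρ.comp φ)) :=
    Module.finite_of_finrank_eq_succ h4
  have h5 : Module.finrank ℂ (IntertwiningMap ρ ρ) ≤ 1 := by
    rw [← h4]
    exact LinearMap.finrank_le_finrank_of_injective (resMap_inj φ ρ)
  have hf' : Module.Finite ℂ (IntertwiningMap ρ ρ) :=
    Module.Finite.of_injective _ (resMap_inj φ ρ)
  obtain ⟨n, hn, hn'⟩ := deg_pos h
  have hV : Nontrivial V := by
    have h6 : ρ.character (φ 1) = (Module.finrank ℂ V : ℂ) := by rw [map_one, char_one]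
    rw [h6] at hn'
    have h7 : Module.finrank ℂ V = n := by exact_mod_cast hn'
    exact Module.nontrivial_of_finrank_pos (R := ℂ) (by omega)
  have h6 : Module.finrank ℂ (IntertwiningMap ρ ρ) ≠ 0 := by
    intro h7
    have h8 := Module.finrank_zero_iff.mp h7
    obtain ⟨x, hx⟩ := exists_ne (0 : V)
    apply hx
    have h9 : (IntertwiningMap.id ρ) = 0 := Subsingleton.elim _ _
    have h10 := congrArg (fun f : IntertwiningMap ρ ρ => f.toLinearMap x) h9
    exact h10
  have h7 : Module.finrank ℂ (IntertwiningMap ρ ρ) = 1 := by omega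
  refine irr_of_norm (isClass_char ρ) ?_ ?_ ⟨Module.finrank ℂ V, char_one ρ⟩
  · intro χ hχ
    obtain ⟨W, _, _, _, σ, hσ, rfl⟩ := hχ
    obtain ⟨m, hm⟩ := B_nat ρ σ
    exact ⟨m, by rw [hm]; norm_cast⟩
  · rw [h3, h7, Nat.cast_one]

end res

section ext

variable {q : ℕ} [hq : Fact q.Prime] {G : Type} [Group G]

/-- the matrices of the extension of `θ ⊗ ⋯ ⊗ θ` -/
def extMat {n : ℕ} (A : G → Matrix (Fin n) (Fin n) ℂ) (c : ZMod q → ℂ) (x : Wq q G) :
    Matrix (ZMod q → Fin n) (ZMod q → Fin n) ℂ :=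
  fun a b => c x.s * ∏ i, A (x.f i) (a i) (b (i - x.s))

theorem extMat_mul {n : ℕ} {A : G → Matrix (Fin n) (Fin n) ℂ} {c : ZMod q → ℂ}
    (hA : ∀ g h, A (g * h) = A g * A h) (hc : ∀ s t, c (s + t) = c s * c t) (x y : Wq q G) :
    extMat A c (x * y) = extMat A c x * extMat A c y := by
  ext a b
  rw [Matrix.mul_apply]
  unfold extMat
  have h1 : ∀ d : ZMod q → Fin n, ∏ i, A (y.f i) (d i) (b (i - y.s)) =
      ∏ i, A (y.f (i - x.s)) (d (i - x.s)) (b (i - x.s - y.s)) := fun d =>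
    (Fintype.prod_equiv (Equiv.subRight x.s) _ _ fun i => rfl).symm
  have h2 : ∑ d : ZMod q → Fin n, (c x.s * ∏ i, A (x.f i) (a i) (d (i - x.s))) *
      (c y.s * ∏ i, A (y.f i) (d i) (b (i - y.s))) =
      c (x.s + y.s) * ∑ d : ZMod q → Fin n, ∏ i, (A (x.f i) (a i) (d (i - x.s)) *
        A (y.f (i - x.s)) (d (i - x.s)) (b (i - x.s - y.s))) := by
    rw [Finset.mul_sum]
    refine Finset.sum_congr rfl fun d _ => ?_
    rw [h1, Finset.prod_mul_distrib, hc]
    ring
  rw [h2]
  have h3 : ∑ d : ZMod q → Fin n, ∏ i, (A (x.f i) (a i) (d (i - x.s)) *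
        A (y.f (i - x.s)) (d (i - x.s)) (b (i - x.s - y.s))) =
      ∑ d : ZMod q → Fin n, ∏ i, (A (x.f i) (a i) (d i) *
        A (y.f (i - x.s)) (d i) (b (i - x.s - y.s))) := by
    refine Fintype.sum_equiv (Equiv.arrowCongr (Equiv.addRight x.s) (Equiv.refl (Fin n))) _ _
      fun d => ?_
    refine Finset.prod_congr rfl fun i _ => ?_
    simp [Equiv.arrowCongr, sub_eq_add_neg]
  rw [h3]
  change c (x.s + y.s) * ∏ i, A (x.f i * y.f (i - x.s)) (a i) (b (i - (x.s + y.s))) = _
  congr 1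
  have h4 : ∀ i, A (x.f i * y.f (i - x.s)) (a i) (b (i - (x.s + y.s))) =
      ∑ k : Fin n, A (x.f i) (a i) k * A (y.f (i - x.s)) k (b (i - x.s - y.s)) := by
    intro i
    rw [hA, Matrix.mul_apply, sub_sub]
  simp_rw [h4]
  rw [Finset.prod_univ_sum, Fintype.piFinset_univ]

theorem extMat_one {n : ℕ} {A : G → Matrix (Fin n) (Fin n) ℂ} {c : ZMod q → ℂ}
    (hA : A 1 = 1) (hc : c 0 = 1) : extMat A c 1 = 1 := by
  ext a b
  unfold extMat
  rw [Wq.one_def]
  simp only [hc, one_mul, sub_zero, Pi.one_apply, hA]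
  by_cases hab : a = b
  · rw [hab, Matrix.one_apply_eq]
    exact Finset.prod_eq_one fun i _ => Matrix.one_apply_eq _
  · rw [Matrix.one_apply_ne hab]
    obtain ⟨i, hi⟩ := Function.ne_iff.mp hab
    exact Finset.prod_eq_zero (Finset.mem_univ i) (Matrix.one_apply_ne hi)

/-- the representation on `V ⊗ ⋯ ⊗ V` -/
def extR {n : ℕ} (A : G → Matrix (Fin n) (Fin n) ℂ) (c : ZMod q → ℂ)
    (hA1 : A 1 = 1) (hA : ∀ g h, A (g * h) = A g * A h) (hc0 : c 0 = 1)
    (hc : ∀ s t, c (s + t) = c s * c t) :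
    Representation ℂ (Wq q G) ((ZMod q → Fin n) → ℂ) where
  toFun x := Matrix.toLin' (extMat A c x)
  map_one' := by
    rw [extMat_one hA1 hc0, Matrix.toLin'_one]
    rfl
  map_mul' x y := by
    rw [extMat_mul hA hc, Matrix.toLin'_mul]
    rfl

theorem extR_char {n : ℕ} (A : G → Matrix (Fin n) (Fin n) ℂ) (c : ZMod q → ℂ)
    (hA1 : A 1 = 1) (hA : ∀ g h, A (g * h) = A g * A h) (hc0 : c 0 = 1)
    (hc : ∀ s t, c (s + t) = c s * c t) (x : Wq q G) :
    (extR A c hA1 hA hc0 hc).character x = c x.s * (∑ a : ZMod q → Fin n,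
      ∏ i, A (x.f i) (a i) (a (i - x.s))) := by
  unfold character
  change LinearMap.trace ℂ _ (Matrix.toLin' (extMat A c x)) = _
  rw [Matrix.trace_toLin'_eq, Matrix.trace, Finset.mul_sum]
  rfl

theorem exists_ext [Finite G] {θ : G → ℂ} (h : IsIrrChar θ) : ∃ χ : Wq q G → ℂ,
    (∀ j : ZMod q, IsIrrChar (fun x : Wq q G => ZMod.stdAddChar (j * x.s) * χ x)) ∧
      ∀ f, χ ⟨f, 0⟩ = tens (fun _ => θ) f := by
  have := Fintype.ofFinite G
  obtain ⟨V, _, _, _, ρ, hρ, e⟩ := id h
  let b := Module.finBasis ℂ V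
  let A : G → Matrix (Fin (Module.finrank ℂ V)) (Fin (Module.finrank ℂ V)) ℂ :=
    fun g => LinearMap.toMatrix b b (ρ g)
  have hA1 : A 1 = 1 := by
    change LinearMap.toMatrix b b (ρ 1) = 1
    rw [map_one]
    exact LinearMap.toMatrix_one b
  have hA : ∀ g k, A (g * k) = A g * A k := by
    intro g k
    change LinearMap.toMatrix b b (ρ (g * k)) = _
    rw [map_mul]
    exact LinearMap.toMatrix_mul b (ρ g) (ρ k)
  have htr : ∀ f : ZMod q → G, ∑ a : ZMod q → Fin (Module.finrank ℂ V),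
      ∏ i, A (f i) (a i) (a i) = tens (fun _ => θ) f := by
    intro f
    unfold tens
    have h1 : ∀ i, θ (f i) = ∑ k, A (f i) k k := by
      intro i
      rw [e]
      unfold character
      rw [LinearMap.trace_eq_matrix_trace ℂ b]
      rfl
    simp_rw [h1]
    rw [Finset.prod_univ_sum, Fintype.piFinset_univ]
  refine ⟨fun x => ∑ a : ZMod q → Fin (Module.finrank ℂ V),
      ∏ i, A (x.f i) (a i) (a (i - x.s)), ?_, ?_⟩
  · intro j
    have hc0 : ZMod.stdAddChar (j * (0 : ZMod q)) = (1 : ℂ) := by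
      rw [mul_zero, AddChar.map_zero_eq_one]
    have hc : ∀ s t : ZMod q, ZMod.stdAddChar (j * (s + t)) =
        (ZMod.stdAddChar (j * s) * ZMod.stdAddChar (j * t) : ℂ) := by
      intro s t
      rw [mul_add, AddChar.map_add_eq_mul]
    have h1 := extR_char (q := q) A (fun s => ZMod.stdAddChar (j * s)) hA1 hA hc0 hc
    have h2 : (fun x : Wq q G => ZMod.stdAddChar (j * x.s) *
        ∑ a : ZMod q → Fin (Module.finrank ℂ V), ∏ i, A (x.f i) (a i) (a (i - x.s))) =
        (extR (q := q) A (fun s => ZMod.stdAddChar (j * s)) hA1 hA hc0 hc).character := by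
      funext x
      exact (h1 x).symm
    rw [h2]
    refine irr_of_res (Wq.base q G) _ ?_
    have h3 : (fun f : ZMod q → G => (extR (q := q) A (fun s => ZMod.stdAddChar (j * s)) hA1 hA hc0
        hc).character (Wq.base q G f)) = tens (fun _ => θ) := by
      funext f
      rw [h1, ← htr]
      change ZMod.stdAddChar (j * (0 : ZMod q)) *
        ∑ a : ZMod q → Fin (Module.finrank ℂ V), ∏ i, A (f i) (a i) (a (i - 0)) = _
      simp only [sub_zero]
      rw [hc0, one_mul]
    rw [h3]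
    exact tens_irr fun _ => h
  · intro f
    simp only [sub_zero]
    exact htr f

/-- an extension of `θ ⊗ ⋯ ⊗ θ` -/
def ext0 (q : ℕ) [Fact q.Prime] {G : Type} [Group G] [Finite G] (θ : G → ℂ) : Wq q G → ℂ :=
  if h : IsIrrChar θ then (exists_ext (q := q) h).choose else 0

/-- the extensions of `θ ⊗ ⋯ ⊗ θ` -/
def extC [Finite G] (j : ZMod q) (θ : G → ℂ) (x : Wq q G) : ℂ :=
  ZMod.stdAddChar (j * x.s) * ext0 q θ x

theorem ext0_spec [Finite G] {θ : G → ℂ} (h : IsIrrChar θ) (f : ZMod q → G) :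
    ext0 q θ ⟨f, 0⟩ = tens (fun _ => θ) f := by
  unfold ext0
  rw [dif_pos h]
  exact (exists_ext (q := q) h).choose_spec.2 f

theorem extC_irr [Finite G] {θ : G → ℂ} (h : IsIrrChar θ) (j : ZMod q) :
    IsIrrChar (extC j θ) := by
  have h1 := (exists_ext (q := q) h).choose_spec.1 j
  have h2 : extC j θ = fun x : Wq q G =>
      ZMod.stdAddChar (j * x.s) * (exists_ext (q := q) h).choose x := by
    funext x
    unfold extC ext0
    rw [dif_pos h]
  rw [h2]
  exact h1

theorem rs_extC [Finite G] {θ : G → ℂ} (h : IsIrrChar θ) (j : ZMod q) :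
    rs (extC j θ) = tens (fun _ => θ) := by
  funext f
  unfold rs extC
  rw [ext0_spec h, mul_zero, AddChar.map_zero_eq_one, one_mul]

theorem extC_inj [Finite G] {θ ψ : G → ℂ} (h1 : IsIrrChar θ) (h2 : IsIrrChar ψ) {j k : ZMod q}
    (h : extC j θ = extC k ψ) : θ = ψ ∧ j = k := by
  have := Fintype.ofFinite G
  have e1 : θ = ψ := by
    have e2 : tens (fun _ : ZMod q => θ) = tens (fun _ : ZMod q => ψ) := by
      rw [← rs_extC h1 j, h, rs_extC h2 k]
    exact congrFun (tens_inj (fun _ => h1) (fun _ => h2) e2) 0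
  subst e1
  refine ⟨rfl, ?_⟩
  by_contra hjk
  have h3 : ∀ x : Wq q G, x.s ≠ 0 → ext0 q θ x = 0 := by
    intro x hx
    have h4 := congrFun h x
    unfold extC at h4
    by_contra hne
    have h5 := mul_right_cancel₀ hne h4
    have h6 := ZMod.injective_stdAddChar h5
    exact hjk (mul_right_cancel₀ hx h6)
  have h4 := B_supp (extC j θ) (extC j θ) (fun x hx => by unfold extC; rw [h3 x hx, mul_zero])
  rw [rs_extC h1, B_tens_self fun _ => h1, B_irr (extC_irr h1 j) (extC_irr h1 j), if_pos rfl,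
    mul_one] at h4
  have h5 : q = 1 := by exact_mod_cast h4
  exact hq.out.one_lt.ne' h5

theorem ind_ne_extC [Finite G] {θ : ZMod q → G → ℂ} (h1 : ∀ i, IsIrrChar (θ i)) (hn : NC θ)
    {ψ : G → ℂ} (h2 : IsIrrChar ψ) (j : ZMod q) : ind θ ≠ extC j ψ := by
  have := Fintype.ofFinite G
  intro h
  have h3 := B_irr (extC_irr h2 j) (extC_irr (q := q) h2 j)
  rw [if_pos rfl] at h3
  nth_rewrite 2 [← h] at h3
  rw [B_fun_ind (extC_irr h2 j).isClass, rs_extC h2, B_tens_ne (fun _ => h2) h1] at h3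
  · exact zero_ne_one h3
  · intro h4
    rw [← h4] at hn
    exact hn 1 one_ne_zero rfl

theorem sum_extC [Finite G] {θ : G → ℂ} (h : IsIrrChar θ) (x : Wq q G) :
    ∑ j : ZMod q, extC j θ x = if x.s = 0 then (q : ℂ) * tens (fun _ => θ) x.f else 0 := by
  unfold extC
  rw [← Finset.sum_mul]
  have h1 := AddChar.sum_mulShift x.s (ZMod.isPrimitive_stdAddChar q)
  rw [h1]
  by_cases hs : x.s = 0
  · rw [if_pos hs, if_pos hs, ZMod.card]
    congr 1
    rw [← ext0_spec h]
    congr 1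
    exact Wq.ext rfl hs
  · rw [if_neg hs, if_neg hs, Nat.cast_zero, zero_mul]

/-- the irreducible characters of `G ≀ C_q` -/
theorem wq_cover [Finite G] {χ : Wq q G → ℂ} (hχ : IsIrrChar χ) :
    (∃ θ : ZMod q → G → ℂ, (∀ i, IsIrrChar (θ i)) ∧ NC θ ∧ χ = ind θ) ∨
      ∃ (θ : G → ℂ) (j : ZMod q), IsIrrChar θ ∧ χ = extC j θ := by
  have := Fintype.ofFinite G
  have hcl := hχ.isClass
  have h1 : ∃ ψ : ZMod q → G → ℂ, (∀ i, IsIrrChar (ψ i)) ∧ B (rs χ) (tens ψ) ≠ 0 := by
    by_contra hcon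
    push Not at hcon
    have h2 := tens_complete (rs_class hcl) hcon
    obtain ⟨n, hn, hn'⟩ := deg_pos hχ
    have h3 : χ 1 = 0 := congrFun h2 1
    rw [h3] at hn'
    have : (n : ℂ) ≠ 0 := by exact_mod_cast hn.ne'
    exact this hn'.symm
  obtain ⟨ψ, hψ, hne⟩ := h1
  rcases nc_or ψ with hn | hc
  · left
    refine ⟨ψ, hψ, hn, ?_⟩
    rw [← B_fun_ind hcl, B_irr hχ (ind_irr hψ hn)] at hne
    by_contra h
    rw [if_neg h] at hne
    exact hne rfl
  · right
    have h2 : ψ = fun _ => ψ 0 := funext hc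
    rw [h2] at hne
    by_contra hcon
    push Not at hcon
    apply hne
    have h3 : ∀ j : ZMod q, B (extC j (ψ 0)) χ = 0 := by
      intro j
      rw [B_irr (extC_irr (hψ 0) j) hχ, if_neg (fun h => hcon _ j (hψ 0) h.symm)]
    have h4 := B_sum_left Finset.univ (fun j : ZMod q => extC j (ψ 0)) χ
    rw [Finset.sum_eq_zero fun j _ => h3 j] at h4
    have h5 : (∑ j : ZMod q, extC j (ψ 0) : Wq q G → ℂ) = fun x =>
        if x.s = 0 then (q : ℂ) * tens (fun _ => ψ 0) x.f else 0 := by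
      funext x
      rw [Finset.sum_apply, sum_extC (hψ 0)]
    rw [h5, B_comm] at h4
    have h6 := B_supp χ (fun x : Wq q G =>
        if x.s = 0 then (q : ℂ) * tens (fun _ => ψ 0) x.f else 0)
        (fun x hx => if_neg hx)
    rw [h4, mul_zero] at h6
    have h7 : rs (fun x : Wq q G =>
        if x.s = 0 then (q : ℂ) * tens (fun _ => ψ 0) x.f else 0) =
        (q : ℂ) • tens (fun _ => ψ 0) := by
      funext f
      exact if_pos rfl
    rw [h7, B_comm, B_smul_left, B_comm] at h6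
    exact (mul_eq_zero.mp h6.symm).resolve_left q_ne

end ext

end Pool.Agent.ZH17.IN
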