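import Pool.Agent.ZH17.IN.Tens

/-!
# Irreducible characters of `G ≀ C_q`: the induced ones
-/

set_option autoImplicit false
set_option maxHeartbeats 400000

open scoped BigOperators Classical

noncomputable section

namespace Pool.Agent.ZH17.IN

open Pool.Agent.Helper884.IC Representation
open Pool.Agent.Q90.WR (irr_of_norm B_nat deg_pos irr_comp irr_comp_iff)

section

variable {q : ℕ} [hq : Fact q.Prime] {G : Type} [Group G]

/-- the restriction to the base group -/
def rs (χ : Wq q G → ℂ) (f : ZMod q → G) : ℂ := χ ⟨f, 0⟩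

/-- a function which is not invariant under the cyclic shift by one -/
def NC {α : Type} (θ : ZMod q → α) : Prop := ∀ t : ZMod q, t ≠ 0 → (fun i => θ (i + t)) ≠ θ

/-- functions on `ZMod q` invariant under a nonzero shift are constant -/
theorem const_of_shift {α : Type} {θ : ZMod q → α} {t : ZMod q} (ht : t ≠ 0)
    (h : (fun i => θ (i + t)) = θ) : ∀ i, θ i = θ 0 := by
  have h1 : ∀ (k : ℕ) (i : ZMod q), θ (i + (k : ZMod q) * t) = θ i := by
    intro k
    induction k with
    | zero =>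
      intro i
      simp
    | succ k ih =>
      intro i
      have h2 : θ (i + (k : ZMod q) * t + t) = θ (i + (k : ZMod q) * t) := congrFun h _
      rw [ih] at h2
      rw [← h2]
      congr 1
      push_cast
      ring
  intro i
  have h2 := h1 ((i * t⁻¹ : ZMod q).val) 0
  rw [ZMod.natCast_val, ZMod.cast_id', id_eq, mul_assoc, inv_mul_cancel₀ ht, mul_one,
    zero_add] at h2
  exact h2

theorem nc_or {α : Type} (θ : ZMod q → α) : NC θ ∨ ∀ i, θ i = θ 0 := by
  by_cases h : NC θ
  · exact Or.inl h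
  · right
    unfold NC at h
    push Not at h
    obtain ⟨t, ht, h⟩ := h
    exact const_of_shift ht h

/-- the character induced from `⊗ θ_i` -/
def ind (θ : ZMod q → G → ℂ) (x : Wq q G) : ℂ :=
  if x.s = 0 then ∑ t : ZMod q, tens (fun i => θ (i + t)) x.f else 0

theorem rs_class {χ : Wq q G → ℂ} (hχ : IsClass χ) : IsClass (rs χ) := by
  intro f g
  have h := hχ ⟨f, 0⟩ ⟨g, 0⟩
  simp only [Wq.mul_def, Wq.inv_def, sub_zero, add_zero, neg_zero] at h
  exact h

theorem rs_shift {χ : Wq q G → ℂ} (hχ : IsClass χ) (f : ZMod q → G) (t : ZMod q) :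
    rs χ (fun i => f (i - t)) = rs χ f := by
  have h := hχ ⟨f, 0⟩ (Wq.shift t)
  rw [Wq.conj_shift] at h
  exact h

theorem tens_class {θ : ZMod q → G → ℂ} (h : ∀ i, IsClass (θ i)) : IsClass (tens θ) := by
  intro f g
  unfold tens
  refine Finset.prod_congr rfl fun i _ => ?_
  exact h i (f i) (g i)

theorem ind_class {θ : ZMod q → G → ℂ} (h : ∀ i, IsClass (θ i)) : IsClass (ind θ) := by
  intro x y
  have h1 : y * x * y⁻¹ = ⟨fun i => y.f i * x.f (i - y.s) * (y.f (i - x.s))⁻¹, x.s⟩ := by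
    simp only [Wq.mul_def, Wq.inv_def, Wq.mk.injEq]
    refine ⟨funext fun i => ?_, by ring⟩
    congr 3
    ring
  rw [h1]
  unfold ind
  simp only
  by_cases hs : x.s = 0
  · rw [if_pos hs, if_pos hs, hs]
    have hA : ∀ t : ZMod q, tens (fun i => θ (i + t))
        (fun i => y.f i * x.f (i - y.s) * (y.f (i - 0))⁻¹) =
        tens (fun i => θ (i + (t + y.s))) x.f := by
      intro t
      unfold tens
      refine Fintype.prod_equiv (Equiv.subRight y.s) _ _ fun i => ?_
      change θ (i + t) (y.f i * x.f (i - y.s) * (y.f (i - 0))⁻¹) =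
        θ (i - y.s + (t + y.s)) (x.f (i - y.s))
      have e : i - y.s + (t + y.s) = i + t := by ring
      rw [sub_zero, h (i + t) (x.f (i - y.s)) (y.f i), e]
    rw [Finset.sum_congr rfl fun t _ => hA t]
    exact Fintype.sum_equiv (Equiv.addRight y.s) _ _ fun t => rfl
  · rw [if_neg hs, if_neg hs]

variable [Fintype G]

theorem B_wq (f h : Wq q G → ℂ) : (q * (Nat.card G : ℂ) ^ q) * B f h =
    ∑ s : ZMod q, ∑ u : ZMod q → G, f ⟨u, s⟩ * h (⟨u, s⟩ : Wq q G)⁻¹ := by
  unfold B
  rw [Wq.sum_eq, Wq.card]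
  have h1 := cardG_ne (G := G)
  have h2 : (q : ℂ) ≠ 0 := q_ne
  push_cast
  rw [mul_inv_cancel_left₀ (mul_ne_zero h2 (pow_ne_zero _ h1))]

theorem B_base (u w : (ZMod q → G) → ℂ) : (Nat.card G : ℂ) ^ q * B u w =
    ∑ x : ZMod q → G, u x * w x⁻¹ := by
  unfold B
  have h1 := cardG_ne (G := G)
  rw [Nat.card_fun, Nat.card_eq_fintype_card (α := ZMod q), ZMod.card]
  push_cast
  rw [mul_inv_cancel_left₀ (pow_ne_zero _ h1)]

/-- the form for functions supported on the base group -/
theorem B_supp (f h : Wq q G → ℂ) (hh : ∀ x : Wq q G, x.s ≠ 0 → h x = 0) :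
    (q : ℂ) * B f h = B (rs f) (rs h) := by
  have h1 := B_wq f h
  have h2 := B_base (rs f) (rs h)
  rw [Finset.sum_eq_single (0 : ZMod q)] at h1
  · have h3 : ∀ u : ZMod q → G, (⟨u, 0⟩ : Wq q G)⁻¹ = ⟨u⁻¹, 0⟩ := by
      intro u
      simp only [Wq.inv_def, add_zero, neg_zero]
      rfl
    simp_rw [h3] at h1
    have h4 := cardG_ne (G := G)
    apply mul_left_cancel₀ (pow_ne_zero q h4)
    rw [h2]
    unfold rs
    rw [← h1]
    ring
  · intro s _ hs
    refine Finset.sum_eq_zero fun u _ => ?_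
    rw [hh, mul_zero]
    rw [Wq.inv_def]
    exact neg_ne_zero.mpr hs
  · intro h
    exact absurd (Finset.mem_univ _) h

theorem rs_ind (θ : ZMod q → G → ℂ) :
    rs (ind θ) = ∑ t : ZMod q, tens (fun i => θ (i + t)) := by
  funext f
  unfold rs ind
  rw [if_pos rfl, Finset.sum_apply]

theorem B_shift {u : (ZMod q → G) → ℂ} (hu : ∀ f t, u (fun i => f (i - t)) = u f)
    (θ : ZMod q → G → ℂ) (t : ZMod q) :
    B u (tens fun i => θ (i + t)) = B u (tens θ) := by
  unfold B
  congr 1
  refine Fintype.sum_equiv (Equiv.arrowCongr (Equiv.addRight t) (Equiv.refl G)) _ _ fun f => ?_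
  have h1 : (Equiv.arrowCongr (Equiv.addRight t) (Equiv.refl G)) f = fun i => f (i - t) := by
    funext i
    simp [Equiv.arrowCongr, sub_eq_add_neg]
  rw [h1, hu]
  congr 1
  unfold tens
  refine Fintype.prod_equiv (Equiv.addRight t) _ _ fun i => ?_
  simp

/-- for a class function, the inner product with an induced character -/
theorem B_fun_ind {χ : Wq q G → ℂ} (hχ : IsClass χ) (θ : ZMod q → G → ℂ) :
    B χ (ind θ) = B (rs χ) (tens θ) := by
  have h1 := B_supp χ (ind θ) (fun x hx => by unfold ind; rw [if_neg hx])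
  rw [rs_ind, B_comm (rs χ), B_sum_left] at h1
  have h2 : ∀ t : ZMod q, B (tens fun i => θ (i + t)) (rs χ) = B (rs χ) (tens θ) := by
    intro t
    rw [B_comm, B_shift (rs_shift hχ)]
  simp_rw [h2] at h1
  rw [Finset.sum_const, Finset.card_univ, ZMod.card, nsmul_eq_mul] at h1
  exact mul_left_cancel₀ (q_ne (q := q)) h1

theorem ind_norm {θ : ZMod q → G → ℂ} (hθ : ∀ i, IsIrrChar (θ i)) (h : NC θ) :
    B (ind θ) (ind θ) = 1 := by
  rw [B_fun_ind (ind_class fun i => (hθ i).isClass), rs_ind, B_sum_left,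
    Finset.sum_eq_single (0 : ZMod q)]
  · have h1 : (fun i => θ (i + 0)) = θ := by
      funext i
      rw [add_zero]
    rw [h1]
    exact B_tens_self hθ
  · intro t _ ht
    exact B_tens_ne (θ := fun i => θ (i + t)) (ψ := θ) (fun i => hθ (i + t)) hθ (h t ht)
  · intro h
    exact absurd (Finset.mem_univ _) h

/-- two induced characters are equal only if the tuples are shifts of each other -/
theorem ind_eq {θ ψ : ZMod q → G → ℂ} (hθ : ∀ i, IsIrrChar (θ i)) (hψ : ∀ i, IsIrrChar (ψ i))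
    (h : B (ind θ) (ind ψ) ≠ 0) : ∃ t : ZMod q, (fun i => θ (i + t)) = ψ := by
  by_contra hcon
  push Not at hcon
  apply h
  rw [B_fun_ind (ind_class fun i => (hθ i).isClass), rs_ind, B_sum_left]
  exact Finset.sum_eq_zero fun t _ =>
    B_tens_ne (θ := fun i => θ (i + t)) (ψ := ψ) (fun i => hθ (i + t)) hψ (hcon t)

theorem ind_irr {θ : ZMod q → G → ℂ} (hθ : ∀ i, IsIrrChar (θ i)) (h : NC θ) :
    IsIrrChar (ind θ) := by
  refine irr_of_norm (ind_class fun i => (hθ i).isClass) ?_ (ind_norm hθ h) ?_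
  · intro χ hχ
    have hcl := hχ.isClass
    obtain ⟨W, _, _, _, σ, _, rfl⟩ := hχ
    obtain ⟨V, _, _, _, ρ, _, hρ⟩ := tens_irr hθ
    obtain ⟨n, hn⟩ := B_nat (σ.comp (Wq.base q G)) ρ
    refine ⟨n, ?_⟩
    rw [B_comm, B_fun_ind hcl, hρ]
    rw [Int.cast_natCast, ← hn]
    rfl
  · choose d hd hd' using fun i => deg_pos (hθ i)
    refine ⟨∑ t : ZMod q, ∏ i, d (i + t), ?_⟩
    unfold ind tens
    rw [if_pos (by rw [Wq.one_def])]
    push_cast
    refine Finset.sum_congr rfl fun t _ => Finset.prod_congr rfl fun i _ => ?_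
    rw [← hd']
    rfl

/-- the degree of the induced character -/
theorem ind_one (θ : ZMod q → G → ℂ) : ind θ 1 = (q : ℂ) * ∏ i, θ i 1 := by
  unfold ind tens
  rw [if_pos (by rw [Wq.one_def])]
  have h1 : ∀ t : ZMod q, ∏ i, θ (i + t) ((1 : Wq q G).f i) = ∏ i, θ i 1 := by
    intro t
    exact Fintype.prod_equiv (Equiv.addRight t) _ _ fun i => rfl
  simp_rw [h1]
  rw [Finset.sum_const, Finset.card_univ, ZMod.card, nsmul_eq_mul]

end

end Pool.Agent.ZH17.IN
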