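import Pool.Agent.ZH17.IN.Aff

/-!
# Normalizers of Sylow subgroups; empty degree classes
-/

set_option autoImplicit false

open scoped BigOperators Classical

noncomputable section

namespace Pool.Agent.ZH17.IN

open Pool.Agent.Helper884.IC
open Pool.Agent.Q90.WR

/-- the normalizer of a Sylow subgroup -/
abbrev N {p : ℕ} {G : Type} [Group G] (P : Sylow p G) : Subgroup G :=
  Subgroup.normalizer ((P : Subgroup G) : Set G)

theorem cnt_zero {p e : ℕ} {c : ZMod p} {G : Type} [Group G] (h : ∀ x : ZMod p, x ^ e ≠ c) :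
    cnt p e c G = 0 := by
  unfold cnt
  rw [Nat.card_eq_zero]
  left
  constructor
  rintro ⟨χ, _, hχ⟩
  exact h _ hχ

end Pool.Agent.ZH17.IN
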