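import Pool.Agent.ZH17.IN.CountQ

/-!
# Residues modulo a prime `q` decide
-/

set_option autoImplicit false
set_option maxHeartbeats 400000

open scoped BigOperators Classical

noncomputable section

namespace Pool.Agent.ZH17.IN

open Pool.Agent.Helper884.IC

/-- A class `X` of groups is closed under `G ↦ G ≀ C_q`, and under `G ↦ G × AGL(1, r)` for all primes
`r` such that the order `r (r - 1)` of `AGL(1, r)` is prime to `p`. -/
structure ClosedQ (p q : ℕ) (X : ∀ (G : Type) [Group G], Prop) : Prop where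
  wr : ∀ (G : Type) [Group G] [Finite G], X G → X (Wq q G)
  aff : ∀ (G : Type) [Group G] [Finite G] (r : ℕ), r.Prime → ¬ p ∣ r * (r - 1) → X G →
    X (G × Aff r)

theorem eq_of_all_pow {q : ℕ} (hq : q.Prime) {x y : ℤ} (h : ∀ a : ℕ, (q : ℤ) ^ (a + 1) ∣ x - y) :
    x = y := by
  by_contra hne
  have h1 : x - y ≠ 0 := sub_ne_zero.mpr hne
  have h2 := Int.natAbs_dvd_natAbs.mpr (h (x - y).natAbs)
  rw [Int.natAbs_pow, Int.natAbs_natCast] at h2
  have h3 := Nat.le_of_dvd (Int.natAbs_pos.mpr h1) h2
  have h4 : (x - y).natAbs < q ^ (x - y).natAbs := Nat.lt_pow_self hq.one_lt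
  have h5 : q ^ (x - y).natAbs ≤ q ^ ((x - y).natAbs + 1) :=
    Nat.pow_le_pow_right hq.pos (by omega)
  omega

section

variable {p : ℕ} [hp : Fact p.Prime] {e : ℕ} {X : ∀ (G : Type) [Group G], Prop}

/-- the class of the degrees `±1` decides about the other classes -/
theorem all_of_one (he : Even e)
    (hX : ∀ (G : Type) [Group G] [Finite G] (r : ℕ), r.Prime → ¬ p ∣ r * (r - 1) → X G →
      X (G × Aff r)) (k : ℤ)
    (H : ∀ (G : Type) [Group G] [Finite G] (P : Sylow p G), X G →
      k ∣ (cnt p e 1 G : ℤ) - cnt p e 1 (N P))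
    (G : Type) [Group G] [Finite G] (P : Sylow p G) (hG : X G) (c : ZMod p) (hc : c ≠ 0) :
    k ∣ (cnt p e c G : ℤ) - cnt p e c (N P) := by
  by_cases hb : ∃ b : ZMod p, b ^ e = c
  swap
  · push Not at hb
    rw [cnt_zero hb, cnt_zero hb]
    simp
  by_cases h1 : c = 1
  · rw [h1]
    exact H G P hG
  obtain ⟨b, hb⟩ := hb
  have he0 : e ≠ 0 := by
    rintro rfl
    exact h1 (by rw [← hb, pow_zero])
  have hb0 : b ≠ 0 := by
    rintro rfl
    rw [zero_pow he0] at hb
    exact hc hb.symm
  have hb1 : b⁻¹ + 1 ≠ 0 := by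
    intro h
    apply h1
    have h2 : b⁻¹ = -1 := by linear_combination h
    have h3 : b = -1 := by
      rw [← inv_inv b, h2, inv_neg, inv_one]
    rw [← hb, h3, he.neg_one_pow]
  have := NeZero.of_gt hp.out.one_lt
  obtain ⟨q, -, hq, hq'⟩ := Nat.forall_exists_prime_gt_and_eq_mod
    (q := p) (a := b⁻¹ + 1) (isUnit_iff_ne_zero.mpr hb1) 0
  have : Fact q.Prime := ⟨hq⟩
  have hne : (q : ZMod p) - 1 = b⁻¹ := by
    rw [hq']
    ring
  have hne' : (q : ZMod p) - 1 ≠ 0 := by
    rw [hne]
    exact inv_ne_zero hb0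
  have hcard : ¬ p ∣ Nat.card (Aff q) := by
    rw [Aff.card, ← ZMod.natCast_eq_zero_iff, Nat.cast_mul, Nat.cast_sub hq.one_le, Nat.cast_one,
      hq', add_sub_cancel_right]
    exact mul_ne_zero (inv_ne_zero hb0) hb1
  obtain ⟨Q, hQ⟩ := exists_sylow_prod (H := Aff q) hcard P
  have e1 : Nonempty (N Q ≃* N P × Aff q) := by
    unfold N
    rw [hQ]
    exact ⟨prodNorm _⟩
  obtain ⟨e1⟩ := e1
  have h2 := H (G × Aff q) Q (hX G q hq (by rwa [Aff.card, mul_comm] at hcard) hG)
  rw [cnt_congr e1, cnt_aff G hne', cnt_aff (N P) hne', hne, inv_pow, inv_inv, hb] at h2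
  have h3 := H G P hG
  push_cast at h2
  have h4 : (cnt p e c G : ℤ) - cnt p e c (N P) =
      ((cnt p e c G : ℤ) + (Irr (ZMod q)ˣ).card * cnt p e 1 G -
        (cnt p e c (N P) + (Irr (ZMod q)ˣ).card * cnt p e 1 (N P))) -
      (Irr (ZMod q)ˣ).card * ((cnt p e 1 G : ℤ) - cnt p e 1 (N P)) := by
    ring
  rw [h4]
  exact dvd_sub h2 (h3.mul_left _)

theorem cast_Tsum {q : ℕ} [Fact q.Prime] (w : ZMod p) (K : Type) [Group K] :
    ((∑ a ∈ Finset.univ.filter (fun a : ZMod q → ZMod p => ∏ i, a i = w),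
      ∏ i, cnt p e (a i) K : ℕ) : ℤ) = Tsum q (fun a => (cnt p e a K : ℤ)) w := by
  unfold Tsum
  push_cast
  refine Finset.sum_congr ?_ fun _ _ => rfl
  ext a
  simp only [Finset.mem_filter]

/-- **Residues decide.** -/
theorem mod_all {q : ℕ} [hq : Fact q.Prime] (hpq : p ≠ q) {u : ℕ} (he : Even e)
    (heu : p - 1 = e * u) (hqu : ¬ q ∣ u) (hX : ClosedQ p q X)
    (H : ∀ (G : Type) [Group G] [Finite G] (P : Sylow p G), X G →
      cnt p e 1 G ≡ cnt p e 1 (N P) [MOD q])
    (G : Type) [Group G] [Finite G] (P : Sylow p G) (hG : X G) (c : ZMod p) (hc : c ≠ 0) :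
    cnt p e c G = cnt p e c (N P) := by
  have hq0 : (q : ZMod p) ≠ 0 := by
    intro h
    rw [ZMod.natCast_eq_zero_iff] at h
    exact hpq ((Nat.prime_dvd_prime_iff_eq hp.out hq.out).mp h)
  have he0 : e ≠ 0 := by
    rintro rfl
    have := hp.out.one_lt
    omega
  have key : ∀ (j : ℕ) (G : Type) [Group G] [Finite G] (P : Sylow p G), X G → ∀ c : ZMod p, c ≠ 0 →
      (q : ℤ) ^ (j + 1) ∣ (cnt p e c G : ℤ) - cnt p e c (N P) := by
    intro j
    induction j with
    | zero =>
      rw [zero_add, pow_one]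
      intro G _ _ P hG c hc
      exact all_of_one he hX.aff q
        (fun G _ _ P hG => Nat.modEq_iff_dvd.mp (H G P hG).symm) G P hG c hc
    | succ j ih =>
      intro G _ _ P hG a ha
      have := Fintype.ofFinite G
      have := Fintype.ofFinite (N P)
      by_cases hb : ∃ b : ZMod p, b ^ e = a
      swap
      · push Not at hb
        rw [cnt_zero hb, cnt_zero hb]
        simp
      obtain ⟨b, hb⟩ := hb
      have hb0 : b ≠ 0 := by
        rintro rfl
        rw [zero_pow he0] at hb
        exact ha hb.symm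
      obtain ⟨Q, hQ⟩ := Wq.exists_sylow (q := q) hpq P
      have e1 : Nonempty (N Q ≃* Wq q (N P)) := by
        unfold N
        rw [hQ]
        exact ⟨Wq.normEquiv _⟩
      obtain ⟨e1⟩ := e1
      have hc : (q : ZMod p) ^ e * a ^ q ≠ 0 := mul_ne_zero (pow_ne_zero _ hq0) (pow_ne_zero _ ha)
      have h1 := ih (Wq q G) Q (hX.wr G hG) _ hc
      rw [cnt_congr e1] at h1
      have w1 := cnt_wq (q := q) (p := p) (e := e) (G := G) ((q : ZMod p) ^ e * a ^ q)
      have w2 := cnt_wq (q := q) (p := p) (e := e) (G := N P) ((q : ZMod p) ^ e * a ^ q)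
      -- the diagonal term
      have hS : ∀ (K : Type) [Group K],
          ∑ x ∈ Finset.univ.filter (fun x : ZMod p =>
            (q : ZMod p) ^ e * x ^ q = (q : ZMod p) ^ e * a ^ q), cnt p e x K = cnt p e a K := by
        intro K _
        refine Finset.sum_eq_single a ?_ ?_
        · intro x hx hxa
          rw [Finset.mem_filter] at hx
          have h2 : x ^ q = a ^ q := mul_left_cancel₀ (pow_ne_zero _ hq0) hx.2
          apply cnt_zero
          intro y hy
          apply hxa
          have hx0 : x ≠ 0 := by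
            rintro rfl
            rw [zero_pow hq.out.ne_zero] at h2
            exact pow_ne_zero q ha h2.symm
          have hy0 : y ≠ 0 := by
            rintro rfl
            rw [zero_pow he0] at hy
            exact hx0 hy.symm
          have h3 : ((y / b) ^ e) ^ q = 1 := by
            rw [div_pow, hy, hb, div_pow, h2, div_self (pow_ne_zero _ ha)]
          have h4 : ((y / b) ^ e) ^ u = 1 := by
            rw [← pow_mul, ← heu]
            exact ZMod.pow_card_sub_one_eq_one (div_ne_zero hy0 hb0)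
          have h5 : orderOf ((y / b) ^ e) ∣ 1 := by
            have h6 : Nat.gcd q u = 1 := (Nat.Prime.coprime_iff_not_dvd hq.out).mpr hqu
            rw [← h6]
            exact Nat.dvd_gcd (orderOf_dvd_of_pow_eq_one h3) (orderOf_dvd_of_pow_eq_one h4)
          have h6 : (y / b) ^ e = 1 := by
            rw [← orderOf_eq_one_iff]
            exact Nat.dvd_one.mp h5
          rw [div_pow, hy, hb] at h6
          exact (div_eq_one_iff_eq ha).mp h6
        · intro h
          refine absurd ?_ h
          rw [Finset.mem_filter]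
          exact ⟨Finset.mem_univ _, rfl⟩
      rw [hS] at w1 w2
      -- the power term
      have hS2 : (q : ℤ) ^ (j + 1) ∣
          ∑ x ∈ Finset.univ.filter (fun x : ZMod p => x ^ q = (q : ZMod p) ^ e * a ^ q),
            ((cnt p e x G : ℤ) - cnt p e x (N P)) := by
        refine Finset.dvd_sum fun x hx => ih G P hG x ?_
        rintro rfl
        rw [Finset.mem_filter, zero_pow hq.out.ne_zero] at hx
        exact hc hx.2.symm
      -- the product term
      have hF : Finset.univ.filter (fun t : ZMod q → ZMod p =>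
          (q : ZMod p) ^ e * ∏ i, t i = (q : ZMod p) ^ e * a ^ q) =
          Finset.univ.filter (fun t : ZMod q → ZMod p => ∏ i, t i = a ^ q) := by
        ext t
        simp only [Finset.mem_filter, Finset.mem_univ, true_and]
        exact ⟨fun h => mul_left_cancel₀ (pow_ne_zero _ hq0) h, fun h => by rw [h]⟩
      rw [hF] at w1 w2
      have hT := Tsum_step (q := q) (x := fun x => (cnt p e x G : ℤ))
        (y := fun x => (cnt p e x (N P) : ℤ)) (j := j) (fun x hx => ih G P hG x hx)
        (pow_ne_zero q ha)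
      rw [← cast_Tsum, ← cast_Tsum] at hT
      obtain ⟨d1, hd1⟩ := h1
      obtain ⟨d2, hd2⟩ := hS2
      obtain ⟨d3, hd3⟩ := hT
      rw [Finset.sum_sub_distrib] at hd2
      have w1' := congrArg (Nat.cast : ℕ → ℤ) w1
      have w2' := congrArg (Nat.cast : ℕ → ℤ) w2
      push_cast at w1' w2' hd3
      refine ⟨d3 + q * d2 - d1, ?_⟩
      linear_combination w1' - w2' + hd3 + (q : ℤ) * q * hd2 - (q : ℤ) * hd1
  exact_mod_cast eq_of_all_pow hq.out fun j => key j G P hG c hc

end

end Pool.Agent.ZH17.IN
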