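import Pool.Agent.ZH17.IN.Wq

/-!
# Irreducible characters of direct powers
-/

set_option autoImplicit false
set_option maxHeartbeats 400000

open scoped BigOperators Classical

noncomputable section

namespace Pool.Agent.ZH17.IN

open Pool.Agent.Helper884.IC Representation
open Pool.Agent.Q90.WR (irr_of_norm B_nat deg_pos irr_comp irr_comp_iff)
open Pool.Agent.Q99.AS (ten ten_irr ten_cover)

/-- the character `⊗ θ_i` of `G^ι` -/
def tens {ι G : Type} [Fintype ι] (θ : ι → G → ℂ) (f : ι → G) : ℂ := ∏ i, θ i (f i)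

section

variable {ι G : Type} [Fintype ι] [DecidableEq ι] [Group G] [Fintype G]

theorem B_tens (θ ψ : ι → G → ℂ) : B (tens θ) (tens ψ) = ∏ i, B (θ i) (ψ i) := by
  unfold B tens
  rw [Finset.prod_mul_distrib, Finset.prod_const, Finset.card_univ, Finset.prod_univ_sum,
    Fintype.piFinset_univ, Nat.card_fun, Nat.card_eq_fintype_card (α := ι), Nat.cast_pow, inv_pow]
  congr 1
  refine Finset.sum_congr rfl fun f _ => ?_
  rw [← Finset.prod_mul_distrib]
  rfl

omit [Fintype ι] [DecidableEq ι] in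
theorem irr_one : IsIrrChar (fun _ : G => (1 : ℂ)) := by
  have h : (fun _ : G => (1 : ℂ)) = (Representation.trivial ℂ G ℂ).character := by
    funext g
    simp [character]
  refine irr_of_norm (fun _ _ => rfl) ?_ ?_ ⟨1, by simp⟩
  · intro χ hχ
    obtain ⟨W, _, _, _, σ, hσ, rfl⟩ := hχ
    obtain ⟨n, hn⟩ := B_nat (Representation.trivial ℂ G ℂ) σ
    refine ⟨n, ?_⟩
    rw [h, hn]
    norm_cast
  · unfold B
    simp only [mul_one, Finset.sum_const, Finset.card_univ, nsmul_eq_mul,
      ← Nat.card_eq_fintype_card]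
    exact inv_mul_cancel₀ cardG_ne

/-- the first coordinate and the others -/
def splitE (n : ℕ) (G : Type) [Group G] : (Fin (n + 1) → G) ≃* G × (Fin n → G) where
  toFun f := (f 0, fun i => f i.succ)
  invFun x := Fin.cons x.1 x.2
  left_inv f := Fin.cons_self_tail f
  right_inv x := by simp
  map_mul' _ _ := rfl

theorem tens_succ {n : ℕ} (θ : Fin (n + 1) → G → ℂ) :
    tens θ = fun f => ten (θ 0) (tens fun i : Fin n => θ i.succ) (splitE n G f) := by
  funext f
  unfold tens
  rw [Fin.prod_univ_succ]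
  rfl

theorem fin_irr : ∀ (n : ℕ) (θ : Fin n → G → ℂ), (∀ i, IsIrrChar (θ i)) → IsIrrChar (tens θ) := by
  intro n
  induction n with
  | zero =>
    intro θ _
    have h : tens θ = fun _ => (1 : ℂ) := by
      funext f
      simp [tens]
    rw [h]
    exact irr_one
  | succ n ih =>
    intro θ hθ
    rw [tens_succ]
    exact irr_comp (splitE n G) (ten_irr (hθ 0) (ih _ fun i => hθ _))

theorem fin_cover : ∀ (n : ℕ) (χ : (Fin n → G) → ℂ), IsIrrChar χ →
    ∃ θ : Fin n → G → ℂ, (∀ i, IsIrrChar (θ i)) ∧ χ = tens θ := by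
  intro n
  induction n with
  | zero =>
    intro χ hχ
    refine ⟨fun _ _ => 1, fun i => i.elim0, ?_⟩
    have h : tens (fun (_ : Fin 0) (_ : G) => (1 : ℂ)) = fun _ => (1 : ℂ) := by
      funext f
      simp [tens]
    rw [h]
    by_contra hne
    have h1 := B_irr hχ (irr_one (G := Fin 0 → G))
    rw [if_neg hne] at h1
    obtain ⟨m, hm, hm'⟩ := deg_pos hχ
    unfold B at h1
    have h2 : (Finset.univ : Finset (Fin 0 → G)) = {1} := by
      ext x
      rw [Finset.mem_singleton]
      exact ⟨fun _ => Subsingleton.elim _ _, fun _ => Finset.mem_univ _⟩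
    rw [h2, Finset.sum_singleton, hm', mul_one] at h1
    rcases mul_eq_zero.mp h1 with h3 | h3
    · exact inv_ne_zero cardG_ne h3
    · have : (m : ℂ) ≠ 0 := by exact_mod_cast hm.ne'
      exact this h3
  | succ n ih =>
    intro χ hχ
    obtain ⟨θ₀, ψ, h1, h2, h3⟩ := ten_cover (irr_comp (splitE n G).symm hχ)
    obtain ⟨θ, h4, h5⟩ := ih ψ h2
    refine ⟨Fin.cons θ₀ θ, ?_, ?_⟩
    · intro i
      refine Fin.cases ?_ (fun i => ?_) i
      · exact h1
      · exact h4 i
    · rw [tens_succ]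
      funext f
      have h6 := congrFun h3 (splitE n G f)
      rw [MulEquiv.symm_apply_apply] at h6
      rw [h6, h5]
      simp

/-- renumbering -/
def reE {κ : Type} (e : ι ≃ κ) (G : Type) [Group G] : (ι → G) ≃* (κ → G) where
  toFun f := fun k => f (e.symm k)
  invFun f := fun i => f (e i)
  left_inv f := by
    funext i
    simp
  right_inv f := by
    funext i
    simp
  map_mul' _ _ := rfl

theorem tens_reE {κ : Type} [Fintype κ] (e : ι ≃ κ) (θ : ι → G → ℂ) :
    tens θ = fun f => tens (fun k => θ (e.symm k)) (reE e G f) := by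
  funext f
  unfold tens
  exact (Equiv.prod_comp e.symm fun i => θ i (f i)).symm

theorem tens_irr {θ : ι → G → ℂ} (hθ : ∀ i, IsIrrChar (θ i)) : IsIrrChar (tens θ) := by
  rw [tens_reE (Fintype.equivFin ι)]
  exact irr_comp (reE (Fintype.equivFin ι) G) (fin_irr _ _ fun i => hθ _)

theorem tens_cover {χ : (ι → G) → ℂ} (hχ : IsIrrChar χ) :
    ∃ θ : ι → G → ℂ, (∀ i, IsIrrChar (θ i)) ∧ χ = tens θ := by
  obtain ⟨θ, h1, h2⟩ := fin_cover _ _ (irr_comp (reE (Fintype.equivFin ι) G).symm hχ)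
  refine ⟨fun i => θ (Fintype.equivFin ι i), fun i => h1 _, ?_⟩
  rw [tens_reE (Fintype.equivFin ι)]
  funext f
  have h3 := congrFun h2 (reE (Fintype.equivFin ι) G f)
  rw [MulEquiv.symm_apply_apply] at h3
  rw [h3]
  simp

theorem tens_inj {θ ψ : ι → G → ℂ} (hθ : ∀ i, IsIrrChar (θ i)) (hψ : ∀ i, IsIrrChar (ψ i))
    (h : tens θ = tens ψ) : θ = ψ := by
  have e := B_tens θ ψ
  rw [← h, B_irr (tens_irr hθ) (tens_irr hθ), if_pos rfl] at e
  funext i
  by_contra hne
  rw [Finset.prod_eq_zero (Finset.mem_univ i)] at e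
  · exact one_ne_zero e
  · rw [B_irr (hθ i) (hψ i), if_neg hne]

theorem B_tens_self {θ : ι → G → ℂ} (hθ : ∀ i, IsIrrChar (θ i)) :
    B (tens θ) (tens θ) = 1 := by
  rw [B_irr (tens_irr hθ) (tens_irr hθ), if_pos rfl]

theorem B_tens_ne {θ ψ : ι → G → ℂ} (hθ : ∀ i, IsIrrChar (θ i)) (hψ : ∀ i, IsIrrChar (ψ i))
    (hne : θ ≠ ψ) : B (tens θ) (tens ψ) = 0 := by
  rw [B_irr (tens_irr hθ) (tens_irr hψ), if_neg fun h => hne (tens_inj hθ hψ h)]

/-- a class function on `G^ι` orthogonal to all products of characters is zero -/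
theorem tens_complete {u : (ι → G) → ℂ} (hu : IsClass u)
    (h : ∀ θ : ι → G → ℂ, (∀ i, IsIrrChar (θ i)) → B u (tens θ) = 0) : u = 0 := by
  refine class_eq_zero u hu fun χ hχ => ?_
  obtain ⟨θ, h1, rfl⟩ := tens_cover hχ
  exact h θ h1

end

end Pool.Agent.ZH17.IN
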