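import Pool.Agent.ZH17.IN.Par

/-!
# The wreath product `G ≀ C_q`
-/

set_option autoImplicit false

open scoped BigOperators Classical

noncomputable section

namespace Pool.Agent.ZH17.IN

open Pool.Agent.Helper884.IC
open Pool.Agent.Q90.WR (mem_normalizer)

/-- The wreath product `G ≀ C_q` of `G` with the cyclic group `ZMod q`: the pairs `(f, s)` of a
function `f : ZMod q → G` and an element `s` of `ZMod q`, with the product
`(f, s) (g, t) = (i ↦ f i * g (i - s), s + t)`. -/
@[ext]
structure Wq (q : ℕ) (G : Type) : Type where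
  /-- the component in `G^q` -/
  f : ZMod q → G
  /-- the component in the cyclic group -/
  s : ZMod q

namespace Wq

variable {q : ℕ} {G : Type}

/-- as a set -/
def eqv : Wq q G ≃ ZMod q × (ZMod q → G) where
  toFun x := (x.s, x.f)
  invFun x := ⟨x.2, x.1⟩
  left_inv _ := rfl
  right_inv _ := rfl

instance [NeZero q] [Finite G] : Finite (Wq q G) := Finite.of_equiv _ eqv.symm

instance [NeZero q] [Fintype G] : Fintype (Wq q G) := Fintype.ofEquiv _ eqv.symm

theorem card [NeZero q] [Finite G] : Nat.card (Wq q G) = q * Nat.card G ^ q := by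
  have := Fintype.ofFinite G
  rw [Nat.card_congr eqv, Nat.card_prod, Nat.card_eq_fintype_card, ZMod.card,
    Nat.card_eq_fintype_card (α := ZMod q → G), Fintype.card_fun, ZMod.card,
    Nat.card_eq_fintype_card]

theorem sum_eq [NeZero q] [Fintype G] {M : Type} [AddCommMonoid M] (F : Wq q G → M) :
    ∑ x, F x = ∑ s, ∑ f : ZMod q → G, F ⟨f, s⟩ := by
  rw [Fintype.sum_equiv eqv F (fun x => F ⟨x.2, x.1⟩) (fun _ => rfl), Fintype.sum_prod_type]

variable [Group G]

instance : Mul (Wq q G) := ⟨fun x y => ⟨fun i => x.f i * y.f (i - x.s), x.s + y.s⟩⟩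

instance : One (Wq q G) := ⟨⟨1, 0⟩⟩

instance : Inv (Wq q G) := ⟨fun x => ⟨fun i => (x.f (i + x.s))⁻¹, -x.s⟩⟩

theorem mul_def (x y : Wq q G) : x * y = ⟨fun i => x.f i * y.f (i - x.s), x.s + y.s⟩ := rfl

theorem one_def : (1 : Wq q G) = ⟨1, 0⟩ := rfl

theorem inv_def (x : Wq q G) : x⁻¹ = ⟨fun i => (x.f (i + x.s))⁻¹, -x.s⟩ := rfl

instance : Group (Wq q G) where
  mul_assoc x y z := by
    simp only [mul_def, Wq.mk.injEq]
    refine ⟨funext fun i => ?_, add_assoc _ _ _⟩
    rw [mul_assoc, sub_sub]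
  one_mul x := by
    simp [mul_def, one_def]
  mul_one x := by
    simp [mul_def, one_def]
  inv_mul_cancel x := by
    simp only [mul_def, inv_def, one_def, Wq.mk.injEq]
    refine ⟨funext fun i => ?_, neg_add_cancel _⟩
    rw [sub_neg_eq_add, inv_mul_cancel]
    rfl

/-- the base group -/
def base (q : ℕ) (G : Type) [Group G] : (ZMod q → G) →* Wq q G where
  toFun f := ⟨f, 0⟩
  map_one' := rfl
  map_mul' f g := by
    simp only [mul_def, sub_zero, add_zero]
    rfl

/-- the cyclic shift -/
def shift (t : ZMod q) : Wq q G := ⟨1, t⟩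

theorem conj_shift (f : ZMod q → G) (t : ZMod q) :
    (shift t) * ⟨f, 0⟩ * (shift t)⁻¹ = (⟨fun i => f (i - t), 0⟩ : Wq q G) := by
  simp [shift, mul_def, inv_def]

/-! ### Sylow subgroups -/

/-- the subgroup `P^q` of the base -/
def pw (q : ℕ) (P : Subgroup G) : Subgroup (Wq q G) where
  carrier := {x | x.s = 0 ∧ ∀ i, x.f i ∈ P}
  one_mem' := ⟨rfl, fun _ => P.one_mem⟩
  mul_mem' := by
    rintro x y ⟨h1, h2⟩ ⟨h3, h4⟩
    exact ⟨by rw [mul_def, h1, h3, add_zero], fun i => P.mul_mem (h2 i) (h4 _)⟩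
  inv_mem' := by
    rintro x ⟨h1, h2⟩
    exact ⟨by rw [inv_def, h1, neg_zero], fun i => P.inv_mem (h2 _)⟩

theorem mem_pw {P : Subgroup G} {x : Wq q G} : x ∈ pw q P ↔ x.s = 0 ∧ ∀ i, x.f i ∈ P := Iff.rfl

/-- `P^q` as a set -/
def pwEquiv (P : Subgroup G) : pw q P ≃ (ZMod q → P) where
  toFun x := fun i => ⟨x.1.f i, x.2.2 i⟩
  invFun y := ⟨⟨fun i => y i, 0⟩, rfl, fun i => (y i).2⟩
  left_inv := by
    rintro ⟨⟨f, s⟩, h1, h2⟩
    simp only at h1
    subst h1
    rfl
  right_inv _ := rfl

theorem card_pw [NeZero q] [Finite G] (P : Subgroup G) :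
    Nat.card (pw q P) = Nat.card P ^ q := by
  have := Fintype.ofFinite P
  rw [Nat.card_congr (pwEquiv P), Nat.card_eq_fintype_card (α := ZMod q → P), Fintype.card_fun,
    ZMod.card, Nat.card_eq_fintype_card]

theorem index_pw [NeZero q] [Finite G] (P : Subgroup G) : (pw q P).index = q * P.index ^ q := by
  have h1 := (pw q P).card_mul_index
  have h2 := P.card_mul_index
  rw [card_pw, Wq.card, ← h2] at h1
  have h3 : 0 < Nat.card P ^ q := pow_pos Nat.card_pos _
  apply Nat.eq_of_mul_eq_mul_left h3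
  rw [h1]
  ring

theorem mem_normalizer_pw {P : Subgroup G} {x : Wq q G} :
    x ∈ Subgroup.normalizer (pw q P : Set (Wq q G)) ↔
      ∀ i, x.f i ∈ Subgroup.normalizer (P : Set G) := by
  have key : ∀ y : Wq q G, x * y * x⁻¹ =
      ⟨fun i => x.f i * y.f (i - x.s) * (x.f (i - y.s))⁻¹, y.s⟩ := by
    intro y
    simp only [mul_def, inv_def, Wq.mk.injEq]
    refine ⟨funext fun i => ?_, by ring⟩
    congr 3
    ring
  rw [mem_normalizer]
  constructor
  · intro h i
    rw [mem_normalizer]
    intro g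
    have h1 := h ⟨Function.update 1 (i - x.s) g, 0⟩
    rw [key] at h1
    simp only [mem_pw, true_and, sub_zero] at h1
    constructor
    · intro hg
      have h2 := h1.mp (by
        intro k
        by_cases hk : k = i - x.s
        · rw [hk, Function.update_self]
          exact hg
        · rw [Function.update_of_ne hk]
          exact P.one_mem) i
      rwa [Function.update_self] at h2
    · intro hg
      have h2 := h1.mpr (by
        intro k
        by_cases hk : k = i
        · rw [hk, Function.update_self]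
          exact hg
        · rw [Function.update_of_ne (fun h => hk (sub_left_injective h)), Pi.one_apply, mul_one,
            mul_inv_cancel]
          exact P.one_mem) (i - x.s)
      rwa [Function.update_self] at h2
  · intro h y
    rw [key]
    simp only [mem_pw]
    refine and_congr_right fun hs => ?_
    rw [hs]
    simp only [sub_zero]
    constructor
    · intro h1 i
      exact ((mem_normalizer.mp (h i)) _).mp (h1 _)
    · intro h1 i
      have h2 := ((mem_normalizer.mp (h (i + x.s))) (y.f i)).mpr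
      apply h2
      have h3 := h1 (i + x.s)
      rwa [add_sub_cancel_right] at h3

/-- the normalizer of `P^q` is the wreath product of the normalizer of `P` -/
def normEquiv (P : Subgroup G) : Subgroup.normalizer (pw q P : Set (Wq q G)) ≃*
    Wq q (Subgroup.normalizer (P : Set G)) where
  toFun x := ⟨fun i => ⟨x.1.f i, mem_normalizer_pw.mp x.2 i⟩, x.1.s⟩
  invFun y := ⟨⟨fun i => (y.f i).1, y.s⟩, mem_normalizer_pw.mpr fun i => (y.f i).2⟩
  left_inv _ := rfl
  right_inv _ := rfl
  map_mul' _ _ := rfl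

theorem isPGroup_pw [NeZero q] {p : ℕ} {P : Subgroup G} [Finite G] [Fact p.Prime]
    (h : IsPGroup p P) : IsPGroup p (pw q P) := by
  obtain ⟨n, hn⟩ := (IsPGroup.iff_card).mp h
  refine IsPGroup.of_card (n := n * q) ?_
  rw [card_pw, hn, pow_mul]

/-- the Sylow subgroup `P^q`, for `p ≠ q` -/
theorem exists_sylow {p : ℕ} [hp : Fact p.Prime] [hq : Fact q.Prime] (hpq : p ≠ q) [Finite G]
    (P : Sylow p G) : ∃ Q : Sylow p (Wq q G), (Q : Subgroup (Wq q G)) = pw q (P : Subgroup G) := by
  refine ⟨(isPGroup_pw P.isPGroup').toSylow ?_, rfl⟩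
  rw [index_pw]
  intro h
  rcases (Nat.Prime.dvd_mul hp.out).mp h with h | h
  · exact hpq ((Nat.prime_dvd_prime_iff_eq hp.out hq.out).mp h)
  · exact P.not_dvd_index (hp.out.dvd_of_dvd_pow h)

end Wq

end Pool.Agent.ZH17.IN
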